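import Mathlib

/-!
# The diagonal Padé approximants `p k / q k` of `e`

`p (k + 1) = (4 k + 2) p k + p (k - 1)` and the same for `q`; `eps k = q k * e - p k` has the sign
`(-1) ^ k` and `q k * |eps (k - 1)| + q (k - 1) * |eps k| = 2`.
-/

set_option autoImplicit false

namespace Pool.Agent.K3EE

open Real

/-- Numerators of the diagonal approximants of `e`: `1, 3, 19, 193, ...`. -/
def p : ℕ → ℤ
  | 0 => 1
  | 1 => 3
  | (k + 2) => (4 * (k : ℤ) + 6) * p (k + 1) + p k

/-- Denominators of the diagonal approximants of `e`: `1, 1, 7, 71, ...`. -/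
def q : ℕ → ℤ
  | 0 => 1
  | 1 => 1
  | (k + 2) => (4 * (k : ℤ) + 6) * q (k + 1) + q k

theorem p_add_two (k : ℕ) : p (k + 2) = (4 * (k : ℤ) + 6) * p (k + 1) + p k := rfl
theorem q_add_two (k : ℕ) : q (k + 2) = (4 * (k : ℤ) + 6) * q (k + 1) + q k := rfl

theorem det (k : ℕ) : p (k + 1) * q k - p k * q (k + 1) = 2 * (-1) ^ k := by
  induction k with
  | zero => simp [p, q]
  | succ k ih =>
    rw [p_add_two, q_add_two, pow_succ]
    linear_combination -ih

theorem q_pos (k : ℕ) : 0 < q k := by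
  induction k using Nat.twoStepInduction with
  | zero => simp [q]
  | one => simp [q]
  | more k h1 h2 =>
    rw [q_add_two]
    positivity

theorem p_pos (k : ℕ) : 0 < p k := by
  induction k using Nat.twoStepInduction with
  | zero => simp [p]
  | one => simp [p]
  | more k h1 h2 =>
    rw [p_add_two]
    positivity

theorem odd_q (k : ℕ) : Odd (q k) := by
  induction k using Nat.twoStepInduction with
  | zero => exact odd_one
  | one => exact odd_one
  | more k h1 h2 =>
    rw [q_add_two]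
    refine Even.add_odd ?_ h1
    exact Even.mul_right ⟨2 * (k : ℤ) + 3, by ring⟩ _

theorem odd_p (k : ℕ) : Odd (p k) := by
  induction k using Nat.twoStepInduction with
  | zero => exact odd_one
  | one => exact ⟨1, rfl⟩
  | more k h1 h2 =>
    rw [p_add_two]
    refine Even.add_odd ?_ h1
    exact Even.mul_right ⟨2 * (k : ℤ) + 3, by ring⟩ _

theorem q_mono_succ (k : ℕ) : q k ≤ q (k + 1) := by
  rcases k with _ | k
  · simp [q]
  · rw [q_add_two]
    have h1 := q_pos (k + 1)
    have h2 := q_pos k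
    nlinarith [mul_nonneg (Int.natCast_nonneg k) h1.le]

theorem q_mono : Monotone q := monotone_nat_of_le_succ q_mono_succ

/-- `p k` and `q k` are coprime. -/
theorem coprime (k : ℕ) : IsCoprime (p k) (q k) := by
  rw [Int.isCoprime_iff_gcd_eq_one]
  have hd : ((Int.gcd (p k) (q k) : ℕ) : ℤ) ∣ 2 := by
    have h1 : ((Int.gcd (p k) (q k) : ℕ) : ℤ) ∣ 2 * (-1) ^ k := by
      rw [← det k]
      exact dvd_sub (Dvd.dvd.mul_left (Int.gcd_dvd_right _ _) _)
        (Dvd.dvd.mul_right (Int.gcd_dvd_left _ _) _)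
    rcases neg_one_pow_eq_or ℤ k with h | h
    · rw [h, mul_one] at h1; exact h1
    · rw [h] at h1
      have := (dvd_neg (α := ℤ)).2 h1
      simpa using this
  have hd' : Int.gcd (p k) (q k) ∣ 2 := by exact_mod_cast hd
  rcases (Nat.dvd_prime Nat.prime_two).1 hd' with h | h
  · exact h
  · exfalso
    have h2 : (2 : ℤ) ∣ q k := by
      have := Int.gcd_dvd_right (p k) (q k)
      rw [h] at this
      exact_mod_cast this
    have h3 := odd_q k
    rw [← Int.not_even_iff_odd] at h3
    exact h3 (even_iff_two_dvd.2 h2)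

/-- The integral `∫ (x (1 - x)) ^ k e ^ x`. -/
noncomputable def I (k : ℕ) : ℝ := ∫ x in (0 : ℝ)..1, (x * (1 - x)) ^ k * exp x

theorem I_pos (k : ℕ) : 0 < I k := by
  rw [I]
  apply intervalIntegral.intervalIntegral_pos_of_pos_on
  · apply Continuous.intervalIntegrable
    fun_prop
  · intro x hx
    have h1 : 0 < x * (1 - x) := mul_pos hx.1 (by linarith [hx.2])
    positivity
  · norm_num

theorem hasDeriv_aux (k : ℕ) (x : ℝ) :
    HasDerivAt (fun x : ℝ => (((k : ℝ) + 2) * (x * (1 - x)) ^ (k + 1) * (1 - 2 * x) -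
      (x * (1 - x)) ^ (k + 2)) * exp x)
      (((k : ℝ) + 2) * ((k : ℝ) + 1) * ((x * (1 - x)) ^ k * exp x) -
        ((k : ℝ) + 2) * (4 * (k : ℝ) + 6) * ((x * (1 - x)) ^ (k + 1) * exp x) -
        ((x * (1 - x)) ^ (k + 2) * exp x)) x := by
  have h0 : HasDerivAt (fun x : ℝ => x * (1 - x)) (1 - 2 * x) x :=
    ((hasDerivAt_id' x).fun_mul ((hasDerivAt_const x (1 : ℝ)).fun_sub
      (hasDerivAt_id' x))).congr_deriv (by ring)
  have h1 : HasDerivAt (fun x : ℝ => (x * (1 - x)) ^ (k + 1))
      (((k : ℝ) + 1) * (x * (1 - x)) ^ k * (1 - 2 * x)) x :=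
    (h0.fun_pow (k + 1)).congr_deriv (by push_cast; rfl)
  have h2 : HasDerivAt (fun x : ℝ => (x * (1 - x)) ^ (k + 2))
      (((k : ℝ) + 2) * (x * (1 - x)) ^ (k + 1) * (1 - 2 * x)) x :=
    (h0.fun_pow (k + 2)).congr_deriv (by push_cast; rfl)
  have h3 : HasDerivAt (fun x : ℝ => 1 - 2 * x) (-2) x :=
    ((hasDerivAt_const x (1 : ℝ)).fun_sub ((hasDerivAt_id' x).const_mul 2)).congr_deriv (by ring)
  exact ((((h1.const_mul ((k : ℝ) + 2)).fun_mul h3).fun_sub h2).fun_mul
    (Real.hasDerivAt_exp x)).congr_deriv (by ring)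

theorem I_rec (k : ℕ) : I (k + 2) = ((k : ℝ) + 2) * ((k : ℝ) + 1) * I k -
    ((k : ℝ) + 2) * (4 * (k : ℝ) + 6) * I (k + 1) := by
  have hint : ∀ m : ℕ, IntervalIntegrable (fun x : ℝ => (x * (1 - x)) ^ m * exp x)
      MeasureTheory.volume 0 1 := by
    intro m
    apply Continuous.intervalIntegrable
    fun_prop
  have h1 := intervalIntegral.integral_eq_sub_of_hasDerivAt (a := 0) (b := 1)
    (fun x _ => hasDeriv_aux k x) (by
      apply Continuous.intervalIntegrable
      fun_prop)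
  rw [intervalIntegral.integral_sub
      (((hint k).const_mul _).sub ((hint (k + 1)).const_mul _)) (hint (k + 2)),
    intervalIntegral.integral_sub ((hint k).const_mul _) ((hint (k + 1)).const_mul _),
    intervalIntegral.integral_const_mul, intervalIntegral.integral_const_mul] at h1
  simp only [mul_zero, sub_zero, mul_one, sub_self, ne_eq, Nat.add_eq_zero_iff, OfNat.ofNat_ne_zero,
    one_ne_zero, and_false, not_false_eq_true, zero_pow, zero_mul, sub_zero] at h1
  simp only [I]
  linarith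

/-- `eps k = q k * e - p k`. -/
noncomputable def eps (k : ℕ) : ℝ := (q k : ℝ) * exp 1 - (p k : ℝ)

theorem eps_add_two (k : ℕ) : eps (k + 2) = (4 * (k : ℝ) + 6) * eps (k + 1) + eps k := by
  simp only [eps, p_add_two, q_add_two]
  push_cast
  ring

theorem I_zero : I 0 = exp 1 - 1 := by
  simp only [I, pow_zero, one_mul]
  rw [integral_exp, exp_zero]

theorem I_one : I 1 = 3 - exp 1 := by
  have h1 := intervalIntegral.integral_eq_sub_of_hasDerivAt (a := 0) (b := 1)
    (f := fun x : ℝ => (3 * x - 3 - x ^ 2) * exp x) (f' := fun x : ℝ => (x * (1 - x)) ^ 1 * exp x)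
    (fun x _ => by
      have h3 : HasDerivAt (fun x : ℝ => 3 * x - 3 - x ^ 2) (3 - 2 * x) x :=
        ((((hasDerivAt_id' x).const_mul 3).fun_sub (hasDerivAt_const x (3 : ℝ))).fun_sub
          ((hasDerivAt_id' x).fun_pow 2)).congr_deriv (by norm_num)
      exact (h3.fun_mul (Real.hasDerivAt_exp x)).congr_deriv (by ring)) (by
      apply Continuous.intervalIntegrable
      fun_prop)
  rw [I, h1]
  simp
  ring

theorem I_eq (k : ℕ) : I k = (-1) ^ k * (k.factorial : ℝ) * eps k := by
  induction k using Nat.twoStepInduction with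
  | zero => rw [I_zero]; simp [eps, p, q]
  | one => rw [I_one]; simp [eps, p, q]
  | more k h1 h2 =>
    rw [I_rec, h1, h2, eps_add_two]
    simp only [Nat.factorial_succ]
    push_cast
    rw [pow_succ, pow_succ]
    ring

/-- `E k = |eps k|`. -/
noncomputable def E (k : ℕ) : ℝ := (-1) ^ k * eps k

theorem E_pos (k : ℕ) : 0 < E k := by
  have h1 := I_pos k
  rw [I_eq] at h1
  have h2 : (0 : ℝ) < (k.factorial : ℝ) := by exact_mod_cast k.factorial_pos
  have h3 : (-1 : ℝ) ^ k * (k.factorial : ℝ) * eps k = (k.factorial : ℝ) * E k := by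
    rw [E]; ring
  rw [h3] at h1
  exact (mul_pos_iff_of_pos_left h2).1 h1

theorem eps_eq (k : ℕ) : eps k = (-1) ^ k * E k := by
  rw [E, ← mul_assoc, ← pow_add, ← two_mul, pow_mul]
  simp

theorem E_det (k : ℕ) : (q (k + 1) : ℝ) * E k + (q k : ℝ) * E (k + 1) = 2 := by
  have h1 : ((p (k + 1) * q k - p k * q (k + 1) : ℤ) : ℝ) = ((2 * (-1) ^ k : ℤ) : ℝ) := by
    rw [det k]
  push_cast at h1
  have h2 : ((-1 : ℝ) ^ k) * ((-1 : ℝ) ^ k) = 1 := by
    rw [← pow_add, ← two_mul, pow_mul]; simp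
  have h3 : (q (k + 1) : ℝ) * E k + (q k : ℝ) * E (k + 1) =
      (-1) ^ k * ((p (k + 1) : ℝ) * (q k : ℝ) - (p k : ℝ) * (q (k + 1) : ℝ)) := by
    simp only [E, eps, pow_succ]
    ring
  rw [h3, h1]
  linear_combination 2 * h2

end Pool.Agent.K3EE
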