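import Mathlib
import Pool.Agent.K3EE.Pade

/-!
# The values `Q (Q e - P)` and the Padé approximants of `e`
-/

set_option autoImplicit false

namespace Pool.Agent.K3EE

open Real

theorem qR_pos (k : ℕ) : (0 : ℝ) < (q k : ℝ) := by exact_mod_cast q_pos k

theorem q_lower (k : ℕ) (hk : 1 ≤ k) : (4 * (k : ℝ) + 2) * (q k : ℝ) ≤ (q (k + 1) : ℝ) := by
  obtain ⟨m, rfl⟩ : ∃ m, k = m + 1 := ⟨k - 1, by omega⟩
  have h1 := qR_pos m
  rw [q_add_two]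
  push_cast
  linarith

theorem q_upper (k : ℕ) (hk : 1 ≤ k) : (q (k + 1) : ℝ) ≤ (4 * (k : ℝ) + 3) * (q k : ℝ) := by
  obtain ⟨m, rfl⟩ : ∃ m, k = m + 1 := ⟨k - 1, by omega⟩
  have h1 : (q m : ℝ) ≤ (q (m + 1) : ℝ) := by exact_mod_cast q_mono_succ m
  rw [q_add_two]
  push_cast
  linarith

theorem E_mul_lt (k : ℕ) : (q (k + 1) : ℝ) * E k < 2 := by
  have h1 := E_det k
  have h2 := mul_pos (qR_pos k) (E_pos (k + 1))
  linarith

theorem qE_lt (k : ℕ) (hk : 1 ≤ k) : (2 * (k : ℝ) + 1) * ((q k : ℝ) * E k) < 1 := by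
  have h1 := E_mul_lt k
  have h2 := mul_le_mul_of_nonneg_right (q_lower k hk) (E_pos k).le
  nlinarith

theorem qE_succ_lt (k : ℕ) (hk : 1 ≤ k) :
    ((4 * (k : ℝ) + 2) * (2 * (k : ℝ) + 3)) * ((q k : ℝ) * E (k + 1)) < 1 := by
  have h1 := qE_lt (k + 1) (by omega)
  have h2 := mul_le_mul_of_nonneg_right (q_lower k hk) (E_pos (k + 1)).le
  push_cast at h1
  have h3 : (0 : ℝ) ≤ 2 * (k : ℝ) + 3 := by positivity
  have h4 := mul_le_mul_of_nonneg_left h2 h3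
  nlinarith

/-- The determinants of `(P, Q)` with the approximants. -/
def D (P Q : ℤ) (k : ℕ) : ℤ := P * q k - Q * p k

theorem D_eq (P Q : ℤ) (k : ℕ) :
    (D P Q k : ℝ) = (Q : ℝ) * eps k - (q k : ℝ) * ((Q : ℝ) * exp 1 - (P : ℝ)) := by
  simp only [D, eps]
  push_cast
  ring

theorem abs_eps (k : ℕ) : |eps k| = E k := by
  rw [eps_eq, abs_mul, abs_pow, abs_neg, abs_one, one_pow, one_mul, abs_of_pos (E_pos k)]

/-- The first basic inequality. -/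
theorem absD_le (P Q : ℤ) (hQ : 0 < Q) (k : ℕ) (hk : 1 ≤ k) (X : ℝ)
    (hX : |(Q : ℝ) * ((Q : ℝ) * exp 1 - (P : ℝ))| ≤ X) (u : ℝ) (hu : u = (Q : ℝ) / (q k : ℝ)) :
    |(D P Q k : ℝ)| ≤ u / (2 * (k : ℝ) + 1) + X / u := by
  have hQ' : (0 : ℝ) < (Q : ℝ) := by exact_mod_cast hQ
  have hq := qR_pos k
  have hu0 : 0 < u := by rw [hu]; positivity
  rw [D_eq]
  refine (abs_sub _ _).trans (add_le_add ?_ ?_)
  · rw [abs_mul, abs_of_pos hQ', abs_eps, hu, div_div, le_div_iff₀ (by positivity)]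
    have h1 := qE_lt k hk
    nlinarith
  · rw [abs_mul, abs_of_pos hq, hu]
    rw [abs_mul, abs_of_pos hQ'] at hX
    rw [div_div_eq_mul_div, le_div_iff₀ hQ']
    nlinarith

/-- The second basic inequality. -/
theorem prodD_le (P Q : ℤ) (hQ : 0 < Q) (k : ℕ) (hk : 1 ≤ k) (X : ℝ)
    (hX : |(Q : ℝ) * ((Q : ℝ) * exp 1 - (P : ℝ))| ≤ X) (u : ℝ) (hu : u = (Q : ℝ) / (q k : ℝ)) :
    |((((-1) ^ (k + 1) * (D P Q (k + 1) * D P Q k) : ℤ)) : ℝ) -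
        2 * ((Q : ℝ) * ((Q : ℝ) * exp 1 - (P : ℝ)))| ≤
      u ^ 2 / ((4 * (k : ℝ) + 2) * (2 * (k : ℝ) + 1) * (2 * (k : ℝ) + 3)) +
        (4 * (k : ℝ) + 3) * X ^ 2 / u ^ 2 + 2 * X / ((4 * (k : ℝ) + 2) * (2 * (k : ℝ) + 3)) := by
  have hQ' : (0 : ℝ) < (Q : ℝ) := by exact_mod_cast hQ
  have hq := qR_pos k
  have hq1 := qR_pos (k + 1)
  have hu0 : 0 < u := by rw [hu]; positivity
  set Δ : ℝ := (Q : ℝ) * ((Q : ℝ) * exp 1 - (P : ℝ)) with hΔ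
  have hX0 : 0 ≤ X := (abs_nonneg _).trans hX
  have hs : ((-1 : ℝ) ^ k) * ((-1 : ℝ) ^ k) = 1 := by
    rw [← pow_add, ← two_mul, pow_mul]; simp
  have hdet := E_det k
  set t : ℝ := (Q : ℝ) * exp 1 - (P : ℝ) with ht
  have e2 : (q k : ℝ) * (q (k + 1) : ℝ) * Δ ^ 2 / (Q : ℝ) ^ 2 =
      (q k : ℝ) * (q (k + 1) : ℝ) * t ^ 2 := by
    rw [hΔ]; field_simp
  have key : ((((-1) ^ (k + 1) * (D P Q (k + 1) * D P Q k) : ℤ)) : ℝ) - 2 * Δ =
      (-1) ^ k * ((Q : ℝ) ^ 2 * (E k * E (k + 1))) +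
        (-1) ^ (k + 1) * ((q k : ℝ) * (q (k + 1) : ℝ) * Δ ^ 2 / (Q : ℝ) ^ 2) +
        -(2 * Δ * ((q k : ℝ) * E (k + 1))) := by
    rw [e2]
    push_cast
    rw [D_eq, D_eq, eps_eq k, eps_eq (k + 1), ← ht, hΔ]
    clear_value t
    rw [pow_succ]
    linear_combination ((-1) ^ k * (Q : ℝ) ^ 2 * E k * E (k + 1) -
        (q k : ℝ) * E (k + 1) * (Q * t) + (q (k + 1) : ℝ) * E k * (Q * t)) * hs
      + (Q * t) * hdet
  rw [key]
  refine (abs_add_le _ _).trans (add_le_add ((abs_add_le _ _).trans (add_le_add ?_ ?_)) ?_)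
  · rw [abs_mul, abs_pow, abs_neg, abs_one, one_pow, one_mul,
      abs_of_nonneg (by have := E_pos k; have := E_pos (k + 1); positivity)]
    rw [le_div_iff₀ (by positivity), hu]
    have h1 := qE_lt k hk
    have h2 := qE_succ_lt k hk
    have h3 := E_pos k
    have h4 := E_pos (k + 1)
    have h5 : ((2 * (k : ℝ) + 1) * ((q k : ℝ) * E k)) *
        (((4 * (k : ℝ) + 2) * (2 * (k : ℝ) + 3)) * ((q k : ℝ) * E (k + 1))) ≤ 1 * 1 :=
      mul_le_mul h1.le h2.le (by positivity) zero_le_one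
    rw [div_pow, le_div_iff₀ (by positivity)]
    have h6 : (Q : ℝ) ^ 2 * (E k * E (k + 1)) * ((4 * (k : ℝ) + 2) * (2 * (k : ℝ) + 1) *
        (2 * (k : ℝ) + 3)) * (q k : ℝ) ^ 2 = (Q : ℝ) ^ 2 * (((2 * (k : ℝ) + 1) *
        ((q k : ℝ) * E k)) * (((4 * (k : ℝ) + 2) * (2 * (k : ℝ) + 3)) *
        ((q k : ℝ) * E (k + 1)))) := by ring
    rw [h6]
    calc (Q : ℝ) ^ 2 * _ ≤ (Q : ℝ) ^ 2 * (1 * 1) := by gcongr
      _ = (Q : ℝ) ^ 2 := by ring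
  · rw [abs_mul, abs_pow, abs_neg, abs_one, one_pow, one_mul, abs_of_nonneg (by positivity)]
    rw [hu, div_pow, div_div_eq_mul_div]
    have h1 : Δ ^ 2 ≤ X ^ 2 := by
      rw [← sq_abs Δ]
      exact pow_le_pow_left₀ (abs_nonneg _) hX 2
    have h2 := q_upper k hk
    refine div_le_div_of_nonneg_right ?_ (by positivity)
    calc (q k : ℝ) * (q (k + 1) : ℝ) * Δ ^ 2
        ≤ (q k : ℝ) * ((4 * (k : ℝ) + 3) * (q k : ℝ)) * X ^ 2 := by gcongr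
      _ = (4 * (k : ℝ) + 3) * X ^ 2 * (q k : ℝ) ^ 2 := by ring
  · rw [abs_neg, abs_mul, abs_mul, abs_two,
      abs_of_nonneg (by have := E_pos (k + 1); positivity : 0 ≤ (q k : ℝ) * E (k + 1))]
    rw [le_div_iff₀ (by positivity)]
    have h2 := qE_succ_lt k hk
    have h4 := E_pos (k + 1)
    calc 2 * |Δ| * ((q k : ℝ) * E (k + 1)) * ((4 * (k : ℝ) + 2) * (2 * (k : ℝ) + 3))
        = 2 * |Δ| * (((4 * (k : ℝ) + 2) * (2 * (k : ℝ) + 3)) * ((q k : ℝ) * E (k + 1))) := by ring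
      _ ≤ 2 * X * 1 := by gcongr
      _ = 2 * X := by ring

end Pool.Agent.K3EE
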