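import Mathlib

/-!
# Bounds for `log (1 + y) - log (1 - y)`
-/

set_option autoImplicit false

namespace Pool.Agent.K3EE

open Real

theorem log_bounds (y : ℝ) (hy : 0 < y) (hy1 : y ≤ 1 / 3) :
    2 * y * (1 + y ^ 2 / 3 + y ^ 4 / 5 + y ^ 6 / 7) ≤ log (1 + y) - log (1 - y) ∧
    log (1 + y) - log (1 - y) ≤ 2 * y * (1 + y ^ 2 / 3 + y ^ 4 / 5 + y ^ 6 / (7 * (1 - y ^ 2))) := by
  have h := Real.hasSum_log_sub_log_of_abs_lt_one (x := y) (by rw [abs_of_pos hy]; linarith)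
  have h3 := (hasSum_nat_add_iff' 3).2 h
  simp only [Finset.sum_range_succ, Finset.sum_range_zero] at h3
  have hy2 : y ^ 2 < 1 := by nlinarith
  constructor
  · have h4 := le_hasSum h3 0 (fun j _ => by positivity)
    norm_num at h4
    nlinarith
  · have hg : HasSum (fun j : ℕ => 2 * (1 / 7) * y ^ 7 * (y ^ 2) ^ j)
        (2 * (1 / 7) * y ^ 7 * (1 - y ^ 2)⁻¹) :=
      (hasSum_geometric_of_lt_one (by positivity) hy2).mul_left _
    have h4 := hasSum_le (fun j => ?_) h3 hg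
    · norm_num at h4
      have h5 : y ^ 6 / (7 * (1 - y ^ 2)) = y ^ 6 / 7 * (1 - y ^ 2)⁻¹ := by
        rw [div_mul_eq_div_div, div_eq_mul_inv (y ^ 6 / 7)]
      rw [h5]
      nlinarith
    · have h5 : y ^ (2 * (j + 3) + 1) = y ^ 7 * (y ^ 2) ^ j := by
        rw [← pow_mul, ← pow_add]; congr 1; ring
      rw [h5]
      have h6 : (1 : ℝ) / (2 * ((j + 3 : ℕ) : ℝ) + 1) ≤ 1 / 7 := by
        apply one_div_le_one_div_of_le (by norm_num)
        push_cast
        have : (0 : ℝ) ≤ (j : ℝ) := Nat.cast_nonneg j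
        linarith
      have h7 : 0 ≤ y ^ 7 * (y ^ 2) ^ j := by positivity
      nlinarith

end Pool.Agent.K3EE
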