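import Mathlib
import Pool.Agent.K3EE.Log

/-!
# The two rational approximations of `e` which come from `e = n (log (1 + y) - log (1 - y))`
-/

set_option autoImplicit false

namespace Pool.Agent.K3EE

open Real

/-- `e = (P / Q) * f` with `f` known with high precision. -/
theorem exists_f (n δ μ : ℝ) (hδ : 0 < δ) (hμ : 3 * δ ≤ μ)
    (he : exp 1 = n * (log (1 + δ / μ) - log (1 - δ / μ))) :
    ∃ f : ℝ, exp 1 * μ = 2 * n * δ * f ∧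
      1 + (δ / μ) ^ 2 / 3 + (δ / μ) ^ 4 / 5 + (δ / μ) ^ 6 / 7 ≤ f ∧
      f ≤ 1 + (δ / μ) ^ 2 / 3 + (δ / μ) ^ 4 / 5 + (δ / μ) ^ 6 / (7 * (1 - (δ / μ) ^ 2)) := by
  have hμ0 : 0 < μ := by linarith
  have hy0 : 0 < δ / μ := by positivity
  have hy1 : δ / μ ≤ 1 / 3 := by rw [div_le_div_iff₀ hμ0 (by norm_num)]; linarith
  obtain ⟨h1, h2⟩ := log_bounds (δ / μ) hy0 hy1
  refine ⟨(log (1 + δ / μ) - log (1 - δ / μ)) / (2 * (δ / μ)), ?_, ?_, ?_⟩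
  · rw [he]; field_simp
  · rw [le_div_iff₀ (by positivity)]; linarith
  · rw [div_le_iff₀ (by positivity)]; linarith

/-- The first approximation. -/
theorem eq0 (n δ μ : ℝ) (hδ : 0 < δ) (hμ : 3 * δ ≤ μ)
    (he : exp 1 = n * (log (1 + δ / μ) - log (1 - δ / μ))) :
    exp 1 * δ ^ 2 / 3 ≤ μ * (μ * exp 1 - 2 * n * δ) ∧
      μ * (μ * exp 1 - 2 * n * δ) ≤ exp 1 * δ ^ 2 / 3 + exp 1 * δ ^ 4 / (4 * μ ^ 2) := by
  have hμ0 : 0 < μ := by linarith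
  obtain ⟨f, hf, hf1, hf2⟩ := exists_f n δ μ hδ hμ he
  have hy0 : 0 < δ / μ := by positivity
  have hy1 : δ / μ ≤ 1 / 3 := by rw [div_le_div_iff₀ hμ0 (by norm_num)]; linarith
  set y : ℝ := δ / μ with hy
  have hδy : δ = y * μ := by rw [hy]; field_simp
  have hf0 : 1 ≤ f := by
    refine le_trans ?_ hf1
    have : 0 ≤ y ^ 2 / 3 + y ^ 4 / 5 + y ^ 6 / 7 := by positivity
    linarith
  have hP : 2 * n * δ = exp 1 * μ / f := by
    rw [eq_div_iff (by linarith), hf]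
  have hy2 : y ^ 2 ≤ 1 / 9 := by nlinarith
  have hy20 : 0 < y ^ 2 := by positivity
  have he0 := exp_pos (1 : ℝ)
  have hval : μ * (μ * exp 1 - 2 * n * δ) = exp 1 * μ ^ 2 * (1 - 1 / f) := by
    rw [hP]; field_simp
  rw [hval, hδy]
  have z4 : y ^ 4 = (y ^ 2) ^ 2 := by ring
  have z6 : y ^ 6 = (y ^ 2) ^ 3 := by ring
  have z8 : y ^ 8 = (y ^ 2) ^ 4 := by ring
  have l1 : y ^ 2 / 3 ≤ 1 - 1 / f := by
    have h3 : (1 - y ^ 2 / 3) * f ≥ 1 := by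
      have h4 : (1 - y ^ 2 / 3) * (1 + y ^ 2 / 3 + y ^ 4 / 5 + y ^ 6 / 7) ≤ (1 - y ^ 2 / 3) * f :=
        mul_le_mul_of_nonneg_left hf1 (by linarith)
      have h5 : 1 ≤ (1 - y ^ 2 / 3) * (1 + y ^ 2 / 3 + y ^ 4 / 5 + y ^ 6 / 7) := by
        have h6 : (1 - y ^ 2 / 3) * (1 + y ^ 2 / 3 + y ^ 4 / 5 + y ^ 6 / 7) =
          1 + (4 / 45) * y ^ 4 + (8 / 105) * y ^ 6 - y ^ 8 / 21 := by ring
        rw [h6]
        have h7 : y ^ 8 ≤ y ^ 6 := pow_le_pow_of_le_one hy0.le (by linarith) (by norm_num)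
        have h8 : 0 ≤ y ^ 4 := by positivity
        have h9 : 0 ≤ y ^ 6 := by positivity
        linarith
      linarith
    have h4 : 1 / f ≤ 1 - y ^ 2 / 3 := by
      rw [div_le_iff₀ (by linarith)]; linarith
    linarith
  have l2 : 1 - 1 / f ≤ y ^ 2 / 3 + y ^ 4 / 4 := by
    have h3 : 1 - 1 / f ≤ f - 1 := by
      have h4 : 2 ≤ f + 1 / f := by
        have h5 : f + 1 / f - 2 = (f - 1) ^ 2 / f := by field_simp; ring
        have h6 : 0 ≤ (f - 1) ^ 2 / f := by positivity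
        linarith
      linarith
    have h4 : y ^ 6 / (7 * (1 - y ^ 2)) ≤ y ^ 4 / 20 := by
      rw [div_le_div_iff₀ (by nlinarith) (by norm_num)]
      have h5 : 0 ≤ y ^ 4 := by positivity
      have h6 : y ^ 6 = y ^ 4 * y ^ 2 := by ring
      rw [h6]
      nlinarith
    linarith
  constructor
  · calc exp 1 * (y * μ) ^ 2 / 3 = exp 1 * μ ^ 2 * (y ^ 2 / 3) := by ring
      _ ≤ _ := by gcongr
  · calc exp 1 * μ ^ 2 * (1 - 1 / f) ≤ exp 1 * μ ^ 2 * (y ^ 2 / 3 + y ^ 4 / 4) := by gcongr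
      _ = exp 1 * (y * μ) ^ 2 / 3 + exp 1 * (y * μ) ^ 4 / (4 * μ ^ 2) := by
        field_simp

/-- The second approximation, from the Padé approximant `(15 - 4 y ^ 2) / (15 - 9 y ^ 2)`. -/
theorem eq1 (n δ μ p q c : ℝ) (hδ : 0 < δ) (hμ : 3 * δ ≤ μ)
    (he : exp 1 = n * (log (1 + δ / μ) - log (1 - δ / μ)))
    (hp : 0 < p) (hq : 0 < q) (hpq : 2 * n * δ * q = μ * p)
    (hc : (15 - 9 * (δ / μ) ^ 2) / (7 * (1 - (δ / μ) ^ 2)) - 9 / 5 ≤ c) :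
    0 ≤ (3 * q * (5 * μ ^ 2 - 3 * δ ^ 2)) * ((3 * q * (5 * μ ^ 2 - 3 * δ ^ 2)) * exp 1 -
        p * (15 * μ ^ 2 - 4 * δ ^ 2)) ∧
      (3 * q * (5 * μ ^ 2 - 3 * δ ^ 2)) * ((3 * q * (5 * μ ^ 2 - 3 * δ ^ 2)) * exp 1 -
        p * (15 * μ ^ 2 - 4 * δ ^ 2)) ≤ 15 * c * exp 1 * q ^ 2 * δ ^ 6 / μ ^ 2 := by
  have hμ0 : 0 < μ := by linarith
  obtain ⟨f, hf, hf1, hf2⟩ := exists_f n δ μ hδ hμ he
  have hy0 : 0 < δ / μ := by positivity
  have hy1 : δ / μ ≤ 1 / 3 := by rw [div_le_div_iff₀ hμ0 (by norm_num)]; linarith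
  set y : ℝ := δ / μ with hy
  have hδy : δ = y * μ := by rw [hy]; field_simp
  have hf0 : 1 ≤ f := by
    refine le_trans ?_ hf1
    have : 0 ≤ y ^ 2 / 3 + y ^ 4 / 5 + y ^ 6 / 7 := by positivity
    linarith
  have he0 := exp_pos (1 : ℝ)
  have hy2 : y ^ 2 ≤ 1 / 9 := by nlinarith
  have hy20 : 0 < y ^ 2 := by positivity
  -- `q e = p f`
  have hqe : q * exp 1 = p * f := by
    have h1 : μ * (q * exp 1) = μ * (p * f) := by
      calc μ * (q * exp 1) = q * (exp 1 * μ) := by ring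
        _ = (2 * n * δ * q) * f := by rw [hf]; ring
        _ = μ * (p * f) := by rw [hpq]; ring
    exact mul_left_cancel₀ hμ0.ne' h1
  set T : ℝ := (15 - 9 * y ^ 2) * f - (15 - 4 * y ^ 2) with hT
  have hval : (3 * q * (5 * μ ^ 2 - 3 * δ ^ 2)) * exp 1 - p * (15 * μ ^ 2 - 4 * δ ^ 2) =
      p * μ ^ 2 * T := by
    have h1 : (3 * q * (5 * μ ^ 2 - 3 * δ ^ 2)) * exp 1 = 3 * (5 * μ ^ 2 - 3 * δ ^ 2) * (p * f) := by
      rw [← hqe]; ring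
    rw [h1, hT, hδy]; ring
  rw [hval]
  have hT0 : 0 ≤ T := by
    have h1 : (15 - 9 * y ^ 2) * (1 + y ^ 2 / 3 + y ^ 4 / 5 + y ^ 6 / 7) ≤ (15 - 9 * y ^ 2) * f :=
      mul_le_mul_of_nonneg_left hf1 (by linarith)
    have h2 : (15 - 9 * y ^ 2) * (1 + y ^ 2 / 3 + y ^ 4 / 5 + y ^ 6 / 7) - (15 - 4 * y ^ 2) =
        y ^ 6 * (12 / 35 - 9 / 7 * y ^ 2) := by ring
    have h3 : 0 ≤ y ^ 6 * (12 / 35 - 9 / 7 * y ^ 2) := by
      apply mul_nonneg (by positivity); linarith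
    linarith
  have hT1 : T ≤ c * y ^ 6 := by
    have h1 : (15 - 9 * y ^ 2) * f ≤ (15 - 9 * y ^ 2) *
        (1 + y ^ 2 / 3 + y ^ 4 / 5 + y ^ 6 / (7 * (1 - y ^ 2))) :=
      mul_le_mul_of_nonneg_left hf2 (by linarith)
    have h2 : (15 - 9 * y ^ 2) * (1 + y ^ 2 / 3 + y ^ 4 / 5 + y ^ 6 / (7 * (1 - y ^ 2))) -
        (15 - 4 * y ^ 2) = ((15 - 9 * y ^ 2) / (7 * (1 - y ^ 2)) - 9 / 5) * y ^ 6 := by
      have h3 : (1 - y ^ 2) ≠ 0 := by nlinarith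
      field_simp
      ring
    have h3 : ((15 - 9 * y ^ 2) / (7 * (1 - y ^ 2)) - 9 / 5) * y ^ 6 ≤ c * y ^ 6 :=
      mul_le_mul_of_nonneg_right hc (by positivity)
    linarith
  have hc0 : 0 ≤ c * y ^ 6 := hT0.trans hT1
  have hpe : p ≤ q * exp 1 := by rw [hqe]; nlinarith
  have hQ0 : 0 ≤ 3 * q * (5 * μ ^ 2 - 3 * δ ^ 2) := by
    apply mul_nonneg (by positivity)
    rw [hδy]
    nlinarith [sq_nonneg μ, mul_nonneg (sq_nonneg μ) (by linarith : (0 : ℝ) ≤ 1 / 9 - y ^ 2)]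
  have hQ1 : 3 * q * (5 * μ ^ 2 - 3 * δ ^ 2) ≤ 15 * q * μ ^ 2 := by
    have : 0 ≤ q * δ ^ 2 := by positivity
    nlinarith
  constructor
  · positivity
  · calc (3 * q * (5 * μ ^ 2 - 3 * δ ^ 2)) * (p * μ ^ 2 * T)
        ≤ (15 * q * μ ^ 2) * ((q * exp 1) * μ ^ 2 * (c * y ^ 6)) := by
          gcongr
      _ = 15 * c * exp 1 * q ^ 2 * δ ^ 6 / μ ^ 2 := by
          rw [hy]; field_simp

end Pool.Agent.K3EE
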