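import Mathlib
import Pool.Agent.K3EE.Bounds

/-!
# Choice of the level; a measure of irrationality of `e`
-/

set_option autoImplicit false

namespace Pool.Agent.K3EE

open Real

theorem q_growth (k : ℕ) : (4 : ℝ) ^ k ≤ (q (k + 1) : ℝ) := by
  induction k with
  | zero => simp [q]
  | succ k ih =>
    have h1 := q_lower (k + 1) (by omega)
    push_cast at h1
    have h2 : (0 : ℝ) ≤ (k : ℝ) := Nat.cast_nonneg k
    have h3 := qR_pos (k + 1)
    have h4 : 4 * (q (k + 1) : ℝ) ≤ (4 * ((k : ℝ) + 1) + 2) * (q (k + 1) : ℝ) := by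
      gcongr; linarith
    rw [pow_succ]
    linarith

theorem exists_level (c x : ℝ) (hc : 0 < c) (hx : c * (q 1 : ℝ) ≤ x) :
    ∃ k : ℕ, 1 ≤ k ∧ c * (q k : ℝ) ≤ x ∧ x < c * (q (k + 1) : ℝ) := by
  have hex : ∃ k : ℕ, x < c * (q (k + 1) : ℝ) := by
    obtain ⟨k, hk⟩ := pow_unbounded_of_one_lt (x / c) (by norm_num : (1 : ℝ) < 4)
    refine ⟨k, ?_⟩
    rw [div_lt_iff₀' hc] at hk
    exact hk.trans_le (mul_le_mul_of_nonneg_left (q_growth k) hc.le)
  classical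
  have h1 := Nat.find_spec hex
  have h2 : 1 ≤ Nat.find hex := by
    rw [Nat.one_le_iff_ne_zero]
    intro h
    rw [h] at h1
    simp only [zero_add] at h1
    linarith
  refine ⟨Nat.find hex, h2, ?_, h1⟩
  have h3 := Nat.find_min hex (m := Nat.find hex - 1) (by omega)
  rw [Nat.sub_add_cancel h2] at h3
  exact not_lt.1 h3

/-- `e` is not well approximable. -/
theorem meas (U V : ℤ) (hU : 0 < U) : ∃ j : ℕ, 1 ≤ j ∧ (q j : ℝ) ≤ 4 * (U : ℝ) ∧
    1 ≤ 8 * (4 * (j : ℝ) + 3) * (U : ℝ) * |(U : ℝ) * exp 1 - (V : ℝ)| := by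
  have hU1 : (1 : ℝ) ≤ (U : ℝ) := by exact_mod_cast hU
  obtain ⟨j, hj, h1, h2⟩ := exists_level 1 (4 * (U : ℝ)) one_pos (by simp [q]; linarith)
  rw [one_mul] at h1 h2
  refine ⟨j, hj, h1, ?_⟩
  have hup := q_upper j hj
  set t : ℝ := |(U : ℝ) * exp 1 - (V : ℝ)| with ht
  have ht0 : 0 ≤ t := abs_nonneg _
  have hq0 := qR_pos j
  have hq1 := qR_pos (j + 1)
  have hmono : (q j : ℝ) ≤ (q (j + 1) : ℝ) := by exact_mod_cast q_mono_succ j
  have hmono2 : (q (j + 1) : ℝ) ≤ (q (j + 2) : ℝ) := by exact_mod_cast q_mono_succ (j + 1)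
  have main : ∀ i : ℕ, D V U i ≠ 0 → (q i : ℝ) ≤ (q (j + 1) : ℝ) →
      (q (j + 1) : ℝ) * E i < 2 → 1 / 2 ≤ (q (j + 1) : ℝ) * t := by
    intro i hne hi hE
    have h3 : (1 : ℝ) ≤ |(D V U i : ℝ)| := by
      have : (1 : ℤ) ≤ |D V U i| := Int.one_le_abs hne
      exact_mod_cast this
    rw [D_eq] at h3
    have h4 := (h3.trans (abs_sub _ _))
    rw [abs_mul, abs_mul, abs_eps, abs_of_pos (qR_pos i), abs_of_pos (by linarith : (0 : ℝ) < (U : ℝ)),
      ← ht] at h4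
    have h5 : (U : ℝ) * E i < 1 / 2 := by
      have h6 := E_pos i
      nlinarith
    have h6 : (q i : ℝ) * t ≤ (q (j + 1) : ℝ) * t := mul_le_mul_of_nonneg_right hi ht0
    linarith
  have hfin : 1 / 2 ≤ (q (j + 1) : ℝ) * t := by
    by_cases h : D V U j = 0
    · refine main (j + 1) ?_ le_rfl ?_
      · intro h'
        have h3 := det j
        have h4 : U * (p (j + 1) * q j - p j * q (j + 1)) = 0 := by
          simp only [D] at h h'
          linear_combination q (j + 1) * h - q j * h'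
        rw [h3] at h4
        have h5 : ((-1 : ℤ) ^ j) ≠ 0 := pow_ne_zero _ (by norm_num)
        have h6 : (2 * (-1 : ℤ) ^ j) ≠ 0 := mul_ne_zero two_ne_zero h5
        rcases mul_eq_zero.1 h4 with h7 | h7
        · omega
        · exact h6 h7
      · have h3 := E_mul_lt (j + 1)
        have h4 := mul_le_mul_of_nonneg_right hmono2 (E_pos (j + 1)).le
        linarith
    · exact main j h hmono (E_mul_lt j)
  have h3 : (q (j + 1) : ℝ) * t ≤ ((4 * (j : ℝ) + 3) * (4 * (U : ℝ))) * t := by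
    refine mul_le_mul_of_nonneg_right (hup.trans ?_) ht0
    exact mul_le_mul_of_nonneg_left h1 (by positivity)
  linarith

/-- Small values: `(P, Q)` is a multiple of an approximant. -/
theorem legendre (P Q : ℤ) (hQ : 0 < Q)
    (hX : |(Q : ℝ) * ((Q : ℝ) * exp 1 - (P : ℝ))| ≤ 1 / 4) : ∃ k : ℕ, 1 ≤ k ∧ D P Q k = 0 := by
  have hQ1 : (1 : ℝ) ≤ (Q : ℝ) := by exact_mod_cast hQ
  obtain ⟨k, hk, h1, h2⟩ := exists_level (3 / 10) (Q : ℝ) (by norm_num) (by simp [q]; linarith)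
  refine ⟨k, hk, ?_⟩
  have hq := qR_pos k
  have hk1 : (1 : ℝ) ≤ (k : ℝ) := by exact_mod_cast hk
  have hb := absD_le P Q hQ k hk (1 / 4) hX _ rfl
  set u : ℝ := (Q : ℝ) / (q k : ℝ) with hu
  have hu1 : 3 / 10 ≤ u := by rw [hu, le_div_iff₀ hq]; exact h1
  have hu2 : u ≤ 3 / 10 * (4 * (k : ℝ) + 3) := by
    rw [hu, div_le_iff₀ hq]
    have h3 := q_upper k hk
    nlinarith
  have hlt : u / (2 * (k : ℝ) + 1) + 1 / 4 / u < 1 := by
    have hu0 : 0 < u := by linarith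
    rw [div_add_div _ _ (by positivity) hu0.ne', div_lt_one (by positivity)]
    nlinarith [mul_nonneg (sub_nonneg.2 hu1) (sub_nonneg.2 hu2)]
  have h5 : |(D P Q k : ℝ)| < 1 := lt_of_le_of_lt hb hlt
  have h6 : |D P Q k| < 1 := by exact_mod_cast h5
  exact Int.abs_lt_one_iff.1 h6

/-- The alternative at the level of `Q`. -/
theorem fork (P Q : ℤ) (hQ : 0 < Q) (X : ℝ) (hX1 : 1 ≤ X)
    (hX : |(Q : ℝ) * ((Q : ℝ) * exp 1 - (P : ℝ))| ≤ X) (k : ℕ) (hk : 1 ≤ k)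
    (h1 : 2 * X * (q k : ℝ) ≤ (Q : ℝ)) (h2 : (Q : ℝ) < 2 * X * (q (k + 1) : ℝ)) :
    D P Q k = 0 ∨ |((((-1) ^ (k + 1) * (D P Q (k + 1) * D P Q k) : ℤ)) : ℝ) -
        2 * ((Q : ℝ) * ((Q : ℝ) * exp 1 - (P : ℝ)))| ≤ 12 * X ^ 2 / (k : ℝ) := by
  have hq := qR_pos k
  have hk1 : (1 : ℝ) ≤ (k : ℝ) := by exact_mod_cast hk
  have hb := absD_le P Q hQ k hk X hX _ rfl
  have hp := prodD_le P Q hQ k hk X hX _ rfl
  set u : ℝ := (Q : ℝ) / (q k : ℝ) with hu
  have hu1 : 2 * X ≤ u := by rw [hu, le_div_iff₀ hq]; exact h1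
  have hu2 : u ≤ 2 * X * (4 * (k : ℝ) + 3) := by
    rw [hu, div_le_iff₀ hq]
    have h3 := q_upper k hk
    nlinarith
  have hu0 : 0 < u := by linarith
  by_cases hc : u ≤ (k : ℝ)
  · left
    have h3 : u / (2 * (k : ℝ) + 1) < 1 / 2 := by
      rw [div_lt_div_iff₀ (by positivity) two_pos]; linarith
    have h4 : X / u ≤ 1 / 2 := by
      rw [div_le_div_iff₀ hu0 two_pos]; linarith
    have h5 : |(D P Q k : ℝ)| < 1 := by linarith
    have h6 : |D P Q k| < 1 := by exact_mod_cast h5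
    exact Int.abs_lt_one_iff.1 h6
  · right
    have hc' : (k : ℝ) ≤ u := (not_le.1 hc).le
    refine hp.trans ?_
    have t1 : u ^ 2 / ((4 * (k : ℝ) + 2) * (2 * (k : ℝ) + 1) * (2 * (k : ℝ) + 3)) ≤
        4 * X ^ 2 / (k : ℝ) := by
      rw [div_le_div_iff₀ (by positivity) (by positivity)]
      have h3 : u ^ 2 ≤ (2 * X * (4 * (k : ℝ) + 3)) ^ 2 := pow_le_pow_left₀ hu0.le hu2 2
      have h4 : (4 * (k : ℝ) + 3) ^ 2 * (k : ℝ) ≤
          (4 * (k : ℝ) + 2) * (2 * (k : ℝ) + 1) * (2 * (k : ℝ) + 3) := by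
        nlinarith [mul_nonneg (by positivity : (0 : ℝ) ≤ k) (by positivity : (0 : ℝ) ≤ k)]
      calc u ^ 2 * (k : ℝ) ≤ (2 * X * (4 * (k : ℝ) + 3)) ^ 2 * (k : ℝ) := by gcongr
        _ = 4 * X ^ 2 * ((4 * (k : ℝ) + 3) ^ 2 * (k : ℝ)) := by ring
        _ ≤ _ := by gcongr
    have t2 : (4 * (k : ℝ) + 3) * X ^ 2 / u ^ 2 ≤ 7 * X ^ 2 / (k : ℝ) := by
      rw [div_le_div_iff₀ (by positivity) (by positivity)]
      have h3 : (k : ℝ) ^ 2 ≤ u ^ 2 := pow_le_pow_left₀ (by positivity) hc' 2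
      calc (4 * (k : ℝ) + 3) * X ^ 2 * (k : ℝ) ≤ (7 * (k : ℝ)) * X ^ 2 * (k : ℝ) := by
            gcongr; linarith
        _ = 7 * X ^ 2 * (k : ℝ) ^ 2 := by ring
        _ ≤ _ := by gcongr
    have t3 : 2 * X / ((4 * (k : ℝ) + 2) * (2 * (k : ℝ) + 3)) ≤ X ^ 2 / (k : ℝ) := by
      rw [div_le_div_iff₀ (by positivity) (by positivity)]
      have h0 : X ≤ X ^ 2 := by nlinarith
      have h3 : 2 * X * (k : ℝ) ≤ X ^ 2 * (2 * (k : ℝ)) := by
        have := mul_le_mul_of_nonneg_right h0 (by positivity : (0 : ℝ) ≤ 2 * (k : ℝ))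
        linarith
      have h4 : X ^ 2 * (2 * (k : ℝ)) ≤ X ^ 2 * ((4 * (k : ℝ) + 2) * (2 * (k : ℝ) + 3)) := by
        refine mul_le_mul_of_nonneg_left ?_ (by positivity)
        nlinarith
      linarith
    calc _ ≤ 4 * X ^ 2 / (k : ℝ) + 7 * X ^ 2 / (k : ℝ) + X ^ 2 / (k : ℝ) :=
          add_le_add (add_le_add t1 t2) t3
      _ = 12 * X ^ 2 / (k : ℝ) := by ring

theorem D_odd (P Q : ℤ) (h : Odd (P + Q)) (k : ℕ) : Odd (D P Q k) := by
  have h1 := odd_p k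
  have h2 := odd_q k
  rw [D]
  rcases Int.even_or_odd P with hP | hP
  · have hQ : Odd Q := by
      rcases Int.even_or_odd Q with hQ | hQ
      · exact absurd (hP.add hQ) (Int.not_even_iff_odd.2 h)
      · exact hQ
    exact (hP.mul_right _).sub_odd (hQ.mul h1)
  · have hQ : Even Q := by
      rcases Int.even_or_odd Q with hQ | hQ
      · exact hQ
      · exact absurd (hP.add_odd hQ) (Int.not_even_iff_odd.2 h)
    exact (hP.mul h2).sub_even (hQ.mul_right _)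

theorem D_ne_zero (P Q : ℤ) (h : Odd (P + Q)) (k : ℕ) : D P Q k ≠ 0 := by
  intro h'
  have h1 := D_odd P Q h k
  rw [h'] at h1
  exact absurd h1 (by decide)

end Pool.Agent.K3EE
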