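import Mathlib
import Pool.Agent.K3EE.Level
import Pool.Agent.K3EE.Equation

/-!
# The general bound
-/

set_option autoImplicit false

namespace Pool.Agent.K3EE

open Real

theorem q_ge (k : ℕ) (hk : 1 ≤ k) : (k : ℝ) ≤ (q k : ℝ) := by
  obtain ⟨m, rfl⟩ : ∃ m, k = m + 1 := ⟨k - 1, by omega⟩
  refine le_trans ?_ (q_growth m)
  have h1 : m + 1 ≤ 4 ^ m := by
    have := Nat.lt_pow_self (n := m) (by norm_num : 1 < 4)
    omega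
  exact_mod_cast h1

/-- If `(P, Q)` is a multiple of an approximant, the multiple is explicit. -/
theorem multiple (P Q : ℤ) (k : ℕ) (h : D P Q k = 0) :
    ∃ r : ℤ, P = r * p k ∧ Q = r * q k := by
  have h1 : P * q k = Q * p k := by simp only [D] at h; linarith
  have h2 : q k ∣ Q := by
    have h3 : q k ∣ Q * p k := ⟨P, by linarith⟩
    exact (coprime k).symm.dvd_of_dvd_mul_right h3
  obtain ⟨r, hr⟩ := h2
  refine ⟨r, ?_, by rw [hr]; ring⟩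
  have h3 : q k * P = q k * (r * p k) := by rw [hr] at h1; linarith
  exact mul_left_cancel₀ (q_pos k).ne' h3

/-- Excluded multiples: if `(n δ, μ / 2)` is `r` times the `k`-th approximant, then `k` is small. -/
theorem second (n δ ν : ℕ) (hδ : 0 < δ) (hμ : 3 * δ ≤ 2 * ν) (hodd : Odd δ)
    (he : exp 1 = (n : ℝ) * (log (1 + (δ : ℝ) / ((2 * ν : ℕ) : ℝ)) -
      log (1 - (δ : ℝ) / ((2 * ν : ℕ) : ℝ))))
    (c : ℝ) (hc : (15 - 9 * ((δ : ℝ) / ((2 * ν : ℕ) : ℝ)) ^ 2) /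
      (7 * (1 - ((δ : ℝ) / ((2 * ν : ℕ) : ℝ)) ^ 2)) - 9 / 5 ≤ c)
    (k : ℕ) (hk : 1 ≤ k) (hD : D ((n : ℤ) * δ) (ν : ℤ) k = 0) :
    (2 * (k : ℝ) + 1) < 180 * c * (δ : ℝ) ^ 4 := by
  have hδ' : (0 : ℝ) < (δ : ℝ) := by exact_mod_cast hδ
  have hμ' : 3 * (δ : ℝ) ≤ ((2 * ν : ℕ) : ℝ) := by exact_mod_cast hμ
  have hν : 0 < ν := by omega
  have hν' : (0 : ℝ) < (ν : ℝ) := by exact_mod_cast hν
  obtain ⟨hΔ1, -⟩ := eq0 (n : ℝ) (δ : ℝ) ((2 * ν : ℕ) : ℝ) hδ' hμ' he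
  obtain ⟨r, hr1, hr2⟩ := multiple _ _ k hD
  have hq := qR_pos k
  have hE := E_pos k
  have he0 := exp_pos (1 : ℝ)
  have hr1' : (n : ℝ) * (δ : ℝ) = (r : ℝ) * (p k : ℝ) := by exact_mod_cast hr1
  have hr2' : (ν : ℝ) = (r : ℝ) * (q k : ℝ) := by exact_mod_cast hr2
  have hr0 : (0 : ℝ) < (r : ℝ) := by
    have : 0 < (r : ℝ) * (q k : ℝ) := by rw [← hr2']; exact hν'
    exact (pos_iff_pos_of_mul_pos this).2 hq
  have hp0 : (0 : ℝ) < (p k : ℝ) := by exact_mod_cast p_pos k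
  -- lower bound for `r ^ 2`
  have hval : ((2 * ν : ℕ) : ℝ) * (((2 * ν : ℕ) : ℝ) * exp 1 - 2 * (n : ℝ) * (δ : ℝ)) =
      4 * ((r : ℝ) ^ 2 * ((q k : ℝ) * eps k)) := by
    push_cast
    rw [mul_assoc 2 (n : ℝ), hr1', hr2', eps]
    ring
  rw [hval] at hΔ1
  have hle : (q k : ℝ) * eps k ≤ (q k : ℝ) * E k := by
    have := le_abs_self (eps k)
    rw [abs_eps] at this
    exact mul_le_mul_of_nonneg_left this hq.le
  have hqE := qE_lt k hk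
  have hr3 : exp 1 * (δ : ℝ) ^ 2 * (2 * (k : ℝ) + 1) < 12 * (r : ℝ) ^ 2 := by
    have h1 : exp 1 * (δ : ℝ) ^ 2 / 3 ≤ 4 * ((r : ℝ) ^ 2 * ((q k : ℝ) * E k)) := by
      have := mul_le_mul_of_nonneg_left hle (by positivity : 0 ≤ 4 * (r : ℝ) ^ 2)
      linarith
    have h2 : 4 * ((r : ℝ) ^ 2 * ((q k : ℝ) * E k)) * (2 * (k : ℝ) + 1) < 4 * (r : ℝ) ^ 2 := by
      have := mul_lt_mul_of_pos_left hqE (by positivity : 0 < 4 * (r : ℝ) ^ 2)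
      linarith
    have h3 := mul_le_mul_of_nonneg_right h1 (by positivity : (0 : ℝ) ≤ 2 * (k : ℝ) + 1)
    linarith
  -- the second approximation
  have hpq : 2 * (n : ℝ) * (δ : ℝ) * (q k : ℝ) = ((2 * ν : ℕ) : ℝ) * (p k : ℝ) := by
    push_cast
    rw [mul_assoc 2 (n : ℝ), hr1', hr2']
    ring
  obtain ⟨h0, h1⟩ := eq1 (n : ℝ) (δ : ℝ) ((2 * ν : ℕ) : ℝ) (p k) (q k) c hδ' hμ' he hp0 hq hpq hc
  by_contra hcon
  rw [not_lt] at hcon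
  set P1 : ℤ := p k * (15 * ((2 * ν : ℕ) : ℤ) ^ 2 - 4 * (δ : ℤ) ^ 2) with hP1
  set Q1 : ℤ := 3 * q k * (5 * ((2 * ν : ℕ) : ℤ) ^ 2 - 3 * (δ : ℤ) ^ 2) with hQ1
  have eQ : (Q1 : ℝ) = 3 * (q k : ℝ) * (5 * ((2 * ν : ℕ) : ℝ) ^ 2 - 3 * (δ : ℝ) ^ 2) := by
    rw [hQ1]; push_cast; ring
  have eP : (P1 : ℝ) = (p k : ℝ) * (15 * ((2 * ν : ℕ) : ℝ) ^ 2 - 4 * (δ : ℝ) ^ 2) := by
    rw [hP1]; push_cast; ring
  rw [← eQ, ← eP] at h0 h1
  have hQ1pos : 0 < Q1 := by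
    have : (0 : ℝ) < (Q1 : ℝ) := by
      rw [eQ]
      apply mul_pos (by positivity)
      have h3 : (3 * (δ : ℝ)) ^ 2 ≤ ((2 * ν : ℕ) : ℝ) ^ 2 :=
        pow_le_pow_left₀ (by positivity) hμ' 2
      have : 0 < (δ : ℝ) ^ 2 := by positivity
      nlinarith
    exact_mod_cast this
  have hpar : Odd (P1 + Q1) := by
    have e1 : Even P1 := by
      refine Even.mul_left ?_ _
      refine ⟨15 * 2 * (ν : ℤ) ^ 2 - 2 * (δ : ℤ) ^ 2, ?_⟩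
      push_cast; ring
    have hδo : Odd (δ : ℤ) := by exact_mod_cast hodd
    have e2 : Odd Q1 := by
      refine Odd.mul (Odd.mul (by decide) (odd_q k)) ?_
      refine Even.sub_odd ?_ (Odd.mul (by decide) (hδo.pow))
      exact ⟨10 * (ν : ℤ) ^ 2, by push_cast; ring⟩
    exact e1.add_odd e2
  have hsmall : |(Q1 : ℝ) * ((Q1 : ℝ) * exp 1 - (P1 : ℝ))| ≤ 1 / 4 := by
    rw [abs_of_nonneg h0]
    refine h1.trans ?_
    rw [div_le_div_iff₀ (by positivity) (by norm_num)]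
    push_cast
    rw [hr2']
    have h5 : 180 * c * (δ : ℝ) ^ 4 * (exp 1 * (δ : ℝ) ^ 2 * (q k : ℝ) ^ 2) ≤
        (2 * (k : ℝ) + 1) * (exp 1 * (δ : ℝ) ^ 2 * (q k : ℝ) ^ 2) :=
      mul_le_mul_of_nonneg_right hcon (by positivity)
    have h6 : exp 1 * (δ : ℝ) ^ 2 * (2 * (k : ℝ) + 1) * (q k : ℝ) ^ 2 ≤
        12 * (r : ℝ) ^ 2 * (q k : ℝ) ^ 2 := mul_le_mul_of_nonneg_right hr3.le (by positivity)
    nlinarith
  obtain ⟨j, -, hj⟩ := legendre P1 Q1 hQ1pos hsmall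
  exact D_ne_zero P1 Q1 hpar j hj

end Pool.Agent.K3EE
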