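import Mathlib
import Pool.Agent.K3EE.Core

/-!
# The general bound: the level is at most `608 (4 j + 3) δ ^ 6`
-/

set_option autoImplicit false

namespace Pool.Agent.K3EE

open Real

theorem general (n δ μ : ℕ) (hδ : 0 < δ) (hμ : 3 * δ ≤ μ) (hpar : ¬ (Even δ ∧ Even μ))
    (he : exp 1 = (n : ℝ) * (log (1 + (δ : ℝ) / (μ : ℝ)) - log (1 - (δ : ℝ) / (μ : ℝ)))) :
    ∃ j k : ℕ, 1 ≤ j ∧ 1 ≤ k ∧ (q j : ℝ) ≤ 8 * (δ : ℝ) ^ 2 ∧
      (k : ℝ) ≤ 608 * (4 * (j : ℝ) + 3) * (δ : ℝ) ^ 6 ∧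
      (μ : ℝ) < 4 * (δ : ℝ) ^ 2 * (q (k + 1) : ℝ) := by
  have hδ1 : (1 : ℝ) ≤ (δ : ℝ) := by exact_mod_cast hδ
  have hδ' : (0 : ℝ) < (δ : ℝ) := by linarith
  have hμ' : 3 * (δ : ℝ) ≤ (μ : ℝ) := by exact_mod_cast hμ
  have hμ0 : (0 : ℝ) < (μ : ℝ) := by linarith
  have he1 : exp 1 < 2.72 := lt_trans Real.exp_one_lt_d9 (by norm_num)
  have he0 := exp_pos (1 : ℝ)
  obtain ⟨hΔ1, hΔ2⟩ := eq0 (n : ℝ) (δ : ℝ) (μ : ℝ) hδ' hμ' he
  have hp1 : 1 ≤ (δ : ℝ) ^ 2 := one_le_pow₀ hδ1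
  have hp2 : 1 ≤ (δ : ℝ) ^ 4 := one_le_pow₀ hδ1
  have hp6 : 1 ≤ (δ : ℝ) ^ 6 := one_le_pow₀ hδ1
  have hq1 : (q 1 : ℝ) = 1 := by simp [q]
  have htriv : (q 1 : ℝ) ≤ 8 * (δ : ℝ) ^ 2 := by rw [hq1]; linarith
  have herr : exp 1 * (δ : ℝ) ^ 4 / (4 * (μ : ℝ) ^ 2) ≤ exp 1 * (δ : ℝ) ^ 2 / 36 := by
    rw [div_le_div_iff₀ (by positivity) (by norm_num)]
    have h3 : (3 * (δ : ℝ)) ^ 2 ≤ (μ : ℝ) ^ 2 := pow_le_pow_left₀ (by positivity) hμ' 2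
    have h4 : exp 1 * (δ : ℝ) ^ 2 * 4 * ((3 * (δ : ℝ)) ^ 2) ≤
        exp 1 * (δ : ℝ) ^ 2 * 4 * (μ : ℝ) ^ 2 := mul_le_mul_of_nonneg_left h3 (by positivity)
    nlinarith
  rcases Nat.even_or_odd μ with hev | hodd
  · -- `μ` even
    obtain ⟨ν, hν⟩ := hev
    have hμν : μ = 2 * ν := by omega
    subst hμν
    have hδodd : Odd δ := by
      rw [← Nat.not_even_iff_odd]
      intro h
      exact hpar ⟨h, ⟨ν, hν⟩⟩
    have hν0 : 0 < ν := by omega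
    have hν' : (0 : ℝ) < (ν : ℝ) := by exact_mod_cast hν0
    have hcast : ((2 * ν : ℕ) : ℝ) = 2 * (ν : ℝ) := by push_cast; ring
    by_cases hsm : (ν : ℝ) < 2 * (δ : ℝ) ^ 2 * (q 1 : ℝ)
    · refine ⟨1, 1, le_rfl, le_rfl, htriv, ?_, ?_⟩
      · push_cast; nlinarith
      · have h3 : (q (1 + 1) : ℝ) = 7 := by norm_num [q]
        rw [h3, hcast]
        rw [hq1] at hsm
        nlinarith
    · rw [not_lt] at hsm
      obtain ⟨k, hk, hk1, hk2⟩ := exists_level (2 * (δ : ℝ) ^ 2) (ν : ℝ) (by positivity) hsm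
      have hk0 : (1 : ℝ) ≤ (k : ℝ) := by exact_mod_cast hk
      have hμlt : ((2 * ν : ℕ) : ℝ) < 4 * (δ : ℝ) ^ 2 * (q (k + 1) : ℝ) := by
        rw [hcast]; linarith
      set Δ' : ℝ := (((ν : ℤ) : ℝ)) * ((((ν : ℤ) : ℝ)) * exp 1 - ((((n : ℤ) * δ : ℤ)) : ℝ))
        with hΔ'
      have hΔv : ((2 * ν : ℕ) : ℝ) * (((2 * ν : ℕ) : ℝ) * exp 1 - 2 * (n : ℝ) * (δ : ℝ)) =
          4 * Δ' := by rw [hΔ']; push_cast; ring
      rw [hΔv] at hΔ1 hΔ2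
      have hX : |Δ'| ≤ (δ : ℝ) ^ 2 := by
        rw [abs_of_nonneg (by nlinarith [mul_pos he0 (by positivity : 0 < (δ : ℝ) ^ 2)])]
        nlinarith
      rcases fork ((n : ℤ) * δ) (ν : ℤ) (by exact_mod_cast hν0) ((δ : ℝ) ^ 2) hp1 hX k hk
        (by exact_mod_cast hk1) (by exact_mod_cast hk2) with hD | hN
      · have hs := second n δ ν hδ hμ hδodd he (1 / 2) (by
          have hy1 : (δ : ℝ) / ((2 * ν : ℕ) : ℝ) ≤ 1 / 3 := by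
            rw [div_le_div_iff₀ hμ0 (by norm_num)]; linarith
          have hy0 : 0 < (δ : ℝ) / ((2 * ν : ℕ) : ℝ) := by positivity
          have hy2 : ((δ : ℝ) / ((2 * ν : ℕ) : ℝ)) ^ 2 ≤ 1 / 9 := by nlinarith
          have hy3 : 0 < ((δ : ℝ) / ((2 * ν : ℕ) : ℝ)) ^ 2 := by positivity
          rw [sub_le_iff_le_add, div_le_iff₀ (by linarith)]
          linarith) k hk hD
        refine ⟨1, k, le_rfl, hk, htriv, ?_, hμlt⟩
        have h4 : (δ : ℝ) ^ 4 ≤ (δ : ℝ) ^ 6 := pow_le_pow_right₀ hδ1 (by norm_num)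
        push_cast
        nlinarith
      · rw [← hΔ'] at hN
        set N : ℤ := (-1) ^ (k + 1) * (D ((n : ℤ) * δ) (ν : ℤ) (k + 1) *
          D ((n : ℤ) * δ) (ν : ℤ) k) with hNdef
        obtain ⟨j, hj, hj1, hj2⟩ := meas ((δ : ℤ) ^ 2) (6 * N) (by positivity)
        push_cast at hj1 hj2
        refine ⟨j, k, hj, hk, by linarith, ?_, hμlt⟩
        have hqk := q_ge k hk
        have hμk : 2 * (δ : ℝ) ^ 2 * (k : ℝ) ≤ (ν : ℝ) := by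
          refine le_trans ?_ hk1
          gcongr
        have herr2 : exp 1 * (δ : ℝ) ^ 4 / (4 * ((2 * ν : ℕ) : ℝ) ^ 2) ≤ (δ : ℝ) ^ 4 / (k : ℝ) := by
          rw [hcast, div_le_div_iff₀ (by positivity) (by positivity)]
          have h3 : (2 * (δ : ℝ) ^ 2 * (k : ℝ)) ^ 2 ≤ (ν : ℝ) ^ 2 :=
            pow_le_pow_left₀ (by positivity) hμk 2
          have h4 : (k : ℝ) ≤ (2 * (δ : ℝ) ^ 2 * (k : ℝ)) ^ 2 := by
            have : (2 * (δ : ℝ) ^ 2 * (k : ℝ)) ^ 2 = 4 * ((δ : ℝ) ^ 4 * (k : ℝ) ^ 2) := by ring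
            rw [this]
            nlinarith [mul_le_mul hp2 (by nlinarith : (k : ℝ) ≤ (k : ℝ) ^ 2) (by positivity)
              (by positivity)]
          have h5 : exp 1 * (k : ℝ) ≤ 4 * (2 * (ν : ℝ)) ^ 2 := by nlinarith
          calc exp 1 * (δ : ℝ) ^ 4 * (k : ℝ) = (δ : ℝ) ^ 4 * (exp 1 * (k : ℝ)) := by ring
            _ ≤ _ := by gcongr
        have habs : |(δ : ℝ) ^ 2 * exp 1 - 6 * (N : ℝ)| ≤ 76 * (δ : ℝ) ^ 4 / (k : ℝ) := by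
          have h1 : |2 * Δ' - exp 1 * (δ : ℝ) ^ 2 / 6| ≤ (1 / 2) * ((δ : ℝ) ^ 4 / (k : ℝ)) := by
            rw [abs_le]; constructor <;> linarith
          have h2 : (δ : ℝ) ^ 2 * exp 1 - 6 * (N : ℝ) =
              -(6 * ((2 * Δ' - exp 1 * (δ : ℝ) ^ 2 / 6) + ((N : ℝ) - 2 * Δ'))) := by ring
          rw [h2, abs_neg, abs_mul, abs_of_pos (by norm_num : (0 : ℝ) < 6)]
          have h3 := abs_add_le (2 * Δ' - exp 1 * (δ : ℝ) ^ 2 / 6) ((N : ℝ) - 2 * Δ')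
          have h4 : 12 * ((δ : ℝ) ^ 2) ^ 2 / (k : ℝ) = 12 * ((δ : ℝ) ^ 4 / (k : ℝ)) := by ring
          rw [h4] at hN
          have h5 : 76 * (δ : ℝ) ^ 4 / (k : ℝ) = 76 * ((δ : ℝ) ^ 4 / (k : ℝ)) := by ring
          rw [h5]
          have h6 : 0 ≤ (δ : ℝ) ^ 4 / (k : ℝ) := by positivity
          linarith
        have h7 : 1 ≤ 8 * (4 * (j : ℝ) + 3) * (δ : ℝ) ^ 2 * (76 * (δ : ℝ) ^ 4 / (k : ℝ)) := by
          refine hj2.trans ?_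
          gcongr
        have h8 : 8 * (4 * (j : ℝ) + 3) * (δ : ℝ) ^ 2 * (76 * (δ : ℝ) ^ 4 / (k : ℝ)) =
            608 * (4 * (j : ℝ) + 3) * (δ : ℝ) ^ 6 / (k : ℝ) := by ring
        rw [h8, le_div_iff₀ (by linarith)] at h7
        linarith
  · -- `μ` odd
    by_cases hsm : (μ : ℝ) < 2 * (δ : ℝ) ^ 2 * (q 1 : ℝ)
    · refine ⟨1, 1, le_rfl, le_rfl, htriv, ?_, ?_⟩
      · push_cast; nlinarith
      · have h3 : (q (1 + 1) : ℝ) = 7 := by norm_num [q]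
        rw [h3]
        rw [hq1] at hsm
        nlinarith
    · rw [not_lt] at hsm
      obtain ⟨k, hk, hk1, hk2⟩ := exists_level (2 * (δ : ℝ) ^ 2) (μ : ℝ) (by positivity) hsm
      have hk0 : (1 : ℝ) ≤ (k : ℝ) := by exact_mod_cast hk
      have hμlt : (μ : ℝ) < 4 * (δ : ℝ) ^ 2 * (q (k + 1) : ℝ) := by linarith
      set Δ : ℝ := (((μ : ℤ) : ℝ)) * ((((μ : ℤ) : ℝ)) * exp 1 - (((2 * (n : ℤ) * δ : ℤ)) : ℝ))
        with hΔ
      have hΔv : (μ : ℝ) * ((μ : ℝ) * exp 1 - 2 * (n : ℝ) * (δ : ℝ)) = Δ := by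
        rw [hΔ]; push_cast; ring
      rw [hΔv] at hΔ1 hΔ2
      have hX : |Δ| ≤ (δ : ℝ) ^ 2 := by
        rw [abs_of_nonneg (by nlinarith [mul_pos he0 (by positivity : 0 < (δ : ℝ) ^ 2)])]
        nlinarith
      have hpar2 : Odd (2 * (n : ℤ) * δ + (μ : ℤ)) := by
        have h1 : Odd (μ : ℤ) := by exact_mod_cast hodd
        refine Even.add_odd ⟨(n : ℤ) * δ, by ring⟩ h1
      rcases fork (2 * (n : ℤ) * δ) (μ : ℤ) (by exact_mod_cast (by omega : 0 < μ)) ((δ : ℝ) ^ 2)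
        hp1 hX k hk (by exact_mod_cast hk1) (by exact_mod_cast hk2) with hD | hN
      · exact absurd hD (D_ne_zero _ _ hpar2 k)
      · rw [← hΔ] at hN
        set N : ℤ := (-1) ^ (k + 1) * (D (2 * (n : ℤ) * δ) (μ : ℤ) (k + 1) *
          D (2 * (n : ℤ) * δ) (μ : ℤ) k) with hNdef
        obtain ⟨j, hj, hj1, hj2⟩ := meas (2 * (δ : ℤ) ^ 2) (3 * N) (by positivity)
        push_cast at hj1 hj2
        refine ⟨j, k, hj, hk, by linarith, ?_, hμlt⟩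
        have hqk := q_ge k hk
        have hμk : 2 * (δ : ℝ) ^ 2 * (k : ℝ) ≤ (μ : ℝ) := by
          refine le_trans ?_ hk1
          gcongr
        have herr2 : exp 1 * (δ : ℝ) ^ 4 / (4 * (μ : ℝ) ^ 2) ≤
            (1 / 5) * ((δ : ℝ) ^ 4 / (k : ℝ)) := by
          have h3 : (2 * (δ : ℝ) ^ 2 * (k : ℝ)) ^ 2 ≤ (μ : ℝ) ^ 2 :=
            pow_le_pow_left₀ (by positivity) hμk 2
          have h4 : 4 * (k : ℝ) ≤ (2 * (δ : ℝ) ^ 2 * (k : ℝ)) ^ 2 := by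
            have : (2 * (δ : ℝ) ^ 2 * (k : ℝ)) ^ 2 = 4 * ((δ : ℝ) ^ 4 * (k : ℝ) ^ 2) := by ring
            rw [this]
            nlinarith [mul_le_mul hp2 (by nlinarith : (k : ℝ) ≤ (k : ℝ) ^ 2) (by positivity)
              (by positivity)]
          have h5 : exp 1 * (k : ℝ) * 5 ≤ 4 * (μ : ℝ) ^ 2 := by nlinarith
          rw [← mul_div_assoc, div_le_div_iff₀ (by positivity) (by positivity)]
          nlinarith
        have habs : |2 * (δ : ℝ) ^ 2 * exp 1 - 3 * (N : ℝ)| ≤ 38 * (δ : ℝ) ^ 4 / (k : ℝ) := by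
          have h6 : 0 ≤ (δ : ℝ) ^ 4 / (k : ℝ) := by positivity
          have h1 : |2 * Δ - 2 * exp 1 * (δ : ℝ) ^ 2 / 3| ≤ (2 / 5) * ((δ : ℝ) ^ 4 / (k : ℝ)) := by
            rw [abs_le]; constructor <;> linarith
          have h2 : 2 * (δ : ℝ) ^ 2 * exp 1 - 3 * (N : ℝ) =
              -(3 * ((2 * Δ - 2 * exp 1 * (δ : ℝ) ^ 2 / 3) + ((N : ℝ) - 2 * Δ))) := by ring
          rw [h2, abs_neg, abs_mul, abs_of_pos (by norm_num : (0 : ℝ) < 3)]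
          have h3 := abs_add_le (2 * Δ - 2 * exp 1 * (δ : ℝ) ^ 2 / 3) ((N : ℝ) - 2 * Δ)
          have h4 : 12 * ((δ : ℝ) ^ 2) ^ 2 / (k : ℝ) = 12 * ((δ : ℝ) ^ 4 / (k : ℝ)) := by ring
          rw [h4] at hN
          have h5 : 38 * (δ : ℝ) ^ 4 / (k : ℝ) = 38 * ((δ : ℝ) ^ 4 / (k : ℝ)) := by ring
          rw [h5]
          linarith
        have h7 : 1 ≤ 8 * (4 * (j : ℝ) + 3) * (2 * (δ : ℝ) ^ 2) *
            (38 * (δ : ℝ) ^ 4 / (k : ℝ)) := by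
          refine hj2.trans ?_
          gcongr
        have h8 : 8 * (4 * (j : ℝ) + 3) * (2 * (δ : ℝ) ^ 2) * (38 * (δ : ℝ) ^ 4 / (k : ℝ)) =
            608 * (4 * (j : ℝ) + 3) * (δ : ℝ) ^ 6 / (k : ℝ) := by ring
        rw [h8, le_div_iff₀ (by linarith)] at h7
        linarith

end Pool.Agent.K3EE
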