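import Mathlib
import Pool.Agent.K3EE.Core

/-!
# No exception for `y = 1 / M`
-/

set_option autoImplicit false

namespace Pool.Agent.K3EE

open Real

theorem qE_ge (k : ℕ) (hk : 2 ≤ k) : 1 ≤ (2 * (k : ℝ) + 31 / 20) * ((q k : ℝ) * E k) := by
  have h1 := E_det k
  have h2 := qE_succ_lt k (by omega)
  have h3 := q_upper k (by omega)
  have hE := E_pos k
  have hk2 : (2 : ℝ) ≤ (k : ℝ) := by exact_mod_cast hk
  have h4 : (q (k + 1) : ℝ) * E k ≤ (4 * (k : ℝ) + 3) * (q k : ℝ) * E k :=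
    mul_le_mul_of_nonneg_right h3 hE.le
  set s : ℝ := (q k : ℝ) * E (k + 1) with hs
  have h5 : 2 - s ≤ (4 * (k : ℝ) + 3) * ((q k : ℝ) * E k) := by linarith
  have hA : (0 : ℝ) < (4 * (k : ℝ) + 2) * (2 * (k : ℝ) + 3) := by positivity
  have hs1 : s < 1 / ((4 * (k : ℝ) + 2) * (2 * (k : ℝ) + 3)) := by
    rw [lt_div_iff₀ hA]; linarith
  have h6 : (4 * (k : ℝ) + 3) ≤ (2 * (k : ℝ) + 31 / 20) *
      (2 - 1 / ((4 * (k : ℝ) + 2) * (2 * (k : ℝ) + 3))) := by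
    have h7 : (2 * (k : ℝ) + 31 / 20) * (1 / ((4 * (k : ℝ) + 2) * (2 * (k : ℝ) + 3))) ≤ 1 / 10 := by
      rw [mul_one_div, div_le_div_iff₀ hA (by norm_num)]
      nlinarith
    linarith
  have h8 : 0 < 4 * (k : ℝ) + 3 := by positivity
  have h9 : 0 < 2 - s := by
    have : 1 / ((4 * (k : ℝ) + 2) * (2 * (k : ℝ) + 3)) ≤ 1 := by
      rw [div_le_one hA]; nlinarith
    linarith
  have h10 : (4 * (k : ℝ) + 3) ≤ (2 * (k : ℝ) + 31 / 20) * (2 - s) := by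
    refine h6.trans (mul_le_mul_of_nonneg_left (by linarith) (by positivity))
  have h11 : (2 * (k : ℝ) + 31 / 20) * (2 - s) ≤
      (2 * (k : ℝ) + 31 / 20) * ((4 * (k : ℝ) + 3) * ((q k : ℝ) * E k)) :=
    mul_le_mul_of_nonneg_left h5 (by positivity)
  have h12 : (4 * (k : ℝ) + 3) * 1 ≤
      (4 * (k : ℝ) + 3) * ((2 * (k : ℝ) + 31 / 20) * ((q k : ℝ) * E k)) := by
    nlinarith
  exact le_of_mul_le_mul_left h12 h8

theorem one_even (n ν : ℕ) (hν : 2 ≤ ν)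
    (he : exp 1 = (n : ℝ) * (log (1 + ((1 : ℕ) : ℝ) / ((2 * ν : ℕ) : ℝ)) -
      log (1 - ((1 : ℕ) : ℝ) / ((2 * ν : ℕ) : ℝ)))) : False := by
  have he1 : exp 1 < 2.7182818286 := Real.exp_one_lt_d9
  have he0 : 2.7182818283 < exp 1 := Real.exp_one_gt_d9
  have hν' : (2 : ℝ) ≤ (ν : ℝ) := by exact_mod_cast hν
  have hcast : ((2 * ν : ℕ) : ℝ) = 2 * (ν : ℝ) := by push_cast; ring
  obtain ⟨hΔ1, hΔ2⟩ := eq0 (n : ℝ) ((1 : ℕ) : ℝ) ((2 * ν : ℕ) : ℝ) (by simp)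
    (by rw [hcast]; push_cast; linarith) he
  set Δ' : ℝ := (((ν : ℤ) : ℝ)) * ((((ν : ℤ) : ℝ)) * exp 1 - ((((n : ℤ) * ((1 : ℕ) : ℤ) : ℤ)) : ℝ))
    with hΔ'
  have hΔv : ((2 * ν : ℕ) : ℝ) * (((2 * ν : ℕ) : ℝ) * exp 1 - 2 * (n : ℝ) * ((1 : ℕ) : ℝ)) =
      4 * Δ' := by rw [hΔ']; push_cast; ring
  rw [hΔv] at hΔ1 hΔ2
  rw [hcast] at hΔ2
  simp only [Nat.cast_one, one_pow, mul_one] at hΔ1 hΔ2
  have hX : |Δ'| ≤ 1 / 4 := by
    rw [abs_of_nonneg (by linarith)]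
    have h1 : exp 1 / (4 * (2 * (ν : ℝ)) ^ 2) ≤ 2.7182818286 / 64 := by
      rw [div_le_div_iff₀ (by positivity) (by norm_num)]
      nlinarith
    linarith
  obtain ⟨k, hk, hD⟩ := legendre ((n : ℤ) * ((1 : ℕ) : ℤ)) (ν : ℤ) (by omega) hX
  have hs := second n 1 ν one_pos (by omega) odd_one he (2 / 5) (by
    rw [hcast]
    push_cast
    have hy : (1 / (2 * (ν : ℝ))) ^ 2 ≤ 1 / 16 := by
      rw [div_pow, one_pow, div_le_div_iff₀ (by positivity) (by norm_num)]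
      nlinarith
    have hy0 : 0 < (1 / (2 * (ν : ℝ))) ^ 2 := by positivity
    rw [sub_le_iff_le_add, div_le_iff₀ (by linarith)]
    linarith) k hk hD
  norm_num at hs
  have hk36 : k ≤ 35 := by
    by_contra h
    have : (36 : ℝ) ≤ (k : ℝ) := by exact_mod_cast (by omega : 36 ≤ k)
    linarith
  obtain ⟨r, hr1, hr2⟩ := multiple _ _ k hD
  have hq := qR_pos k
  have hE := E_pos k
  have hr1' : (((((n : ℤ) * ((1 : ℕ) : ℤ) : ℤ)) : ℝ)) = (r : ℝ) * (p k : ℝ) := by exact_mod_cast hr1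
  have hr2' : (((ν : ℤ)) : ℝ) = (r : ℝ) * (q k : ℝ) := by exact_mod_cast hr2
  have hr0 : 0 < r := by
    have h1 : 0 < r * q k := by rw [← hr2]; omega
    exact (pos_iff_pos_of_mul_pos h1).2 (q_pos k)
  have hr0' : (1 : ℝ) ≤ (r : ℝ) := by exact_mod_cast hr0
  have hval : Δ' = (r : ℝ) ^ 2 * ((q k : ℝ) * eps k) := by
    rw [hΔ', hr1', hr2', eps]; ring
  have hk2 : 2 ≤ k := by
    by_contra h
    have h1 : k = 1 := by omega
    subst h1
    have h2 : Δ' = (r : ℝ) ^ 2 * (exp 1 - 3) := by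
      rw [hval, eps]; simp [q, p]
    have h3 : (r : ℝ) ^ 2 * (exp 1 - 3) < 0 := mul_neg_of_pos_of_neg (by positivity) (by linarith)
    linarith
  -- the sign
  have heps : eps k = E k := by
    rcases neg_one_pow_eq_or ℝ k with h | h
    · rw [eps_eq, h, one_mul]
    · exfalso
      have h2 : eps k = - E k := by rw [eps_eq, h]; ring
      have h3 : Δ' ≤ 0 := by
        rw [hval, h2]
        have : 0 < (r : ℝ) ^ 2 * ((q k : ℝ) * E k) := by positivity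
        linarith
      linarith
  rw [heps] at hval
  have hq7 : (7 : ℝ) ≤ (q k : ℝ) := by
    have h1 : (q 2 : ℤ) ≤ q k := q_mono hk2
    have h2 : (q 2 : ℤ) = 7 := by norm_num [q]
    rw [h2] at h1
    exact_mod_cast h1
  have hν7 : (7 : ℝ) ≤ (ν : ℝ) := by
    have : (ν : ℝ) = (r : ℝ) * (q k : ℝ) := by exact_mod_cast hr2'
    rw [this]; nlinarith
  have hΔ3 : 4 * Δ' ≤ 0.90957 := by
    have h1 : exp 1 / (4 * (2 * (ν : ℝ)) ^ 2) ≤ 2.7182818286 / 784 := by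
      rw [div_le_div_iff₀ (by positivity) (by norm_num)]
      nlinarith
    linarith
  have l1 := qE_lt k (by omega)
  have l2 := qE_ge k hk2
  have hk0 : (0 : ℝ) ≤ (k : ℝ) := Nat.cast_nonneg k
  have m1 : 0.906 * (2 * (k : ℝ) + 1) ≤ 4 * (r : ℝ) ^ 2 := by
    have h1 : 4 * Δ' * (2 * (k : ℝ) + 1) ≤ 4 * (r : ℝ) ^ 2 := by
      rw [hval]
      have := mul_le_mul_of_nonneg_left l1.le (by positivity : 0 ≤ 4 * (r : ℝ) ^ 2)
      linarith
    have h2 : 0.906 * (2 * (k : ℝ) + 1) ≤ 4 * Δ' * (2 * (k : ℝ) + 1) :=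
      mul_le_mul_of_nonneg_right (by linarith) (by positivity)
    linarith
  have m2 : 4 * (r : ℝ) ^ 2 ≤ 0.90957 * (2 * (k : ℝ) + 31 / 20) := by
    have h1 : 4 * (r : ℝ) ^ 2 ≤ 4 * Δ' * (2 * (k : ℝ) + 31 / 20) := by
      rw [hval]
      have := mul_le_mul_of_nonneg_left l2 (by positivity : 0 ≤ 4 * (r : ℝ) ^ 2)
      linarith
    have h2 : 4 * Δ' * (2 * (k : ℝ) + 31 / 20) ≤ 0.90957 * (2 * (k : ℝ) + 31 / 20) :=
      mul_le_mul_of_nonneg_right hΔ3 (by positivity)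
    linarith
  have hk35 : (k : ℝ) ≤ 35 := by exact_mod_cast hk36
  have hr4 : r ≤ 4 := by
    by_contra h
    have h1 : (5 : ℝ) ≤ (r : ℝ) := by exact_mod_cast (by omega : 5 ≤ r)
    nlinarith
  have m1' : 906 * (2 * (k : ℤ) + 1) ≤ 4000 * r ^ 2 := by
    have : 906 * (2 * (k : ℝ) + 1) ≤ 4000 * (r : ℝ) ^ 2 := by linarith
    exact_mod_cast this
  have m2' : 8000000 * r ^ 2 ≤ 90957 * (40 * (k : ℤ) + 31) := by
    have : 8000000 * (r : ℝ) ^ 2 ≤ 90957 * (40 * (k : ℝ) + 31) := by linarith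
    exact_mod_cast this
  interval_cases r <;> omega

end Pool.Agent.K3EE
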