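import Mathlib
import Pool.Agent.K3EE.One

/-!
# No exception for `y = 1 / M`, `M` odd
-/

set_option autoImplicit false

namespace Pool.Agent.K3EE

open Real

theorem one_odd (n M : ℕ) (hM : 3 ≤ M) (hodd : Odd M)
    (he : exp 1 = (n : ℝ) * (log (1 + ((1 : ℕ) : ℝ) / (M : ℝ)) -
      log (1 - ((1 : ℕ) : ℝ) / (M : ℝ)))) : False := by
  have he1 : exp 1 < 2.7182818286 := Real.exp_one_lt_d9
  have he0 : 2.7182818283 < exp 1 := Real.exp_one_gt_d9
  have hM' : (3 : ℝ) ≤ (M : ℝ) := by exact_mod_cast hM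
  obtain ⟨hΔ1, hΔ2⟩ := eq0 (n : ℝ) ((1 : ℕ) : ℝ) (M : ℝ) (by simp)
    (by push_cast; linarith) he
  set Δ : ℝ := (((M : ℤ) : ℝ)) * ((((M : ℤ) : ℝ)) * exp 1 - (((2 * (n : ℤ) : ℤ)) : ℝ))
    with hΔ
  have hΔv : (M : ℝ) * ((M : ℝ) * exp 1 - 2 * (n : ℝ) * ((1 : ℕ) : ℝ)) = Δ := by
    rw [hΔ]; push_cast; ring
  rw [hΔv] at hΔ1 hΔ2
  simp only [Nat.cast_one, one_pow, mul_one] at hΔ1 hΔ2
  have hΔe : Δ = (M : ℝ) ^ 2 * exp 1 - 2 * (M : ℝ) * (n : ℝ) := by rw [hΔ]; push_cast; ring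
  -- small `M`
  have hM9 : 9 ≤ M := by
    by_contra h
    have h1 : M = 3 ∨ M = 5 ∨ M = 7 := by
      obtain ⟨m, hm⟩ := hodd
      omega
    rcases h1 with rfl | rfl | rfl
    · norm_num at hΔ2 hΔe
      have a1 : (6 * n : ℝ) < 24 := by linarith
      have a2 : (18 : ℝ) < 6 * n := by linarith
      have b1 : 6 * n < 24 := by exact_mod_cast a1
      have b2 : 18 < 6 * n := by exact_mod_cast a2
      omega
    · norm_num at hΔ2 hΔe
      have a1 : (10 * n : ℝ) < 70 := by linarith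
      have a2 : (60 : ℝ) < 10 * n := by linarith
      have b1 : 10 * n < 70 := by exact_mod_cast a1
      have b2 : 60 < 10 * n := by exact_mod_cast a2
      omega
    · norm_num at hΔ2 hΔe
      have a1 : (14 * n : ℝ) < 140 := by linarith
      have a2 : (126 : ℝ) < 14 * n := by linarith
      have b1 : 14 * n < 140 := by exact_mod_cast a1
      have b2 : 126 < 14 * n := by exact_mod_cast a2
      omega
  have hM9' : (9 : ℝ) ≤ (M : ℝ) := by exact_mod_cast hM9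
  have hΔ3 : Δ ≤ 0.915 := by
    have h1 : exp 1 / (4 * (M : ℝ) ^ 2) ≤ 2.7182818286 / 324 := by
      rw [div_le_div_iff₀ (by positivity) (by norm_num)]
      nlinarith
    linarith
  have hΔ4 : 0.906 ≤ Δ := by linarith
  have hX : |Δ| ≤ 0.915 := by rw [abs_of_nonneg (by linarith)]; exact hΔ3
  have hpar : Odd (2 * (n : ℤ) + (M : ℤ)) := by
    have h1 : Odd (M : ℤ) := by exact_mod_cast hodd
    exact Even.add_odd ⟨(n : ℤ), by ring⟩ h1
  obtain ⟨k, hk, hk1, hk2⟩ := exists_level (5 / 4) (M : ℝ) (by norm_num) (by simp [q]; linarith)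
  have hk2' : 2 ≤ k := by
    by_contra h
    have h1 : k = 1 := by omega
    subst h1
    have h3 : (q (1 + 1) : ℝ) = 7 := by norm_num [q]
    rw [h3] at hk2
    linarith
  have hk0 : (2 : ℝ) ≤ (k : ℝ) := by exact_mod_cast hk2'
  have hMpos : (0 : ℤ) < (M : ℤ) := by omega
  have hb := absD_le (2 * (n : ℤ)) (M : ℤ) hMpos k hk 0.915 hX _ rfl
  have hp := prodD_le (2 * (n : ℤ)) (M : ℤ) hMpos k hk 0.915 hX _ rfl
  rw [← hΔ] at hp
  have hq := qR_pos k
  set u : ℝ := (((M : ℤ)) : ℝ) / (q k : ℝ) with hu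
  have hMM : (((M : ℤ)) : ℝ) = (M : ℝ) := by push_cast; rfl
  have hu1 : 5 / 4 ≤ u := by rw [hu, hMM, le_div_iff₀ hq]; exact hk1
  have hu2 : u ≤ 5 / 4 * (4 * (k : ℝ) + 3) := by
    rw [hu, hMM, div_le_iff₀ hq]
    have h3 := q_upper k hk
    nlinarith
  have hu0 : 0 < u := by linarith
  by_cases hc : u ≤ 2 * (k : ℝ) - 1 / 4
  · have h3 : u / (2 * (k : ℝ) + 1) + 0.915 / u < 1 := by
      rw [div_add_div _ _ (by positivity) hu0.ne', div_lt_one (by positivity)]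
      nlinarith [mul_nonneg (sub_nonneg.2 hu1) (sub_nonneg.2 hc)]
    have h5 : |(D (2 * (n : ℤ)) (M : ℤ) k : ℝ)| < 1 := lt_of_le_of_lt hb h3
    have h6 : |D (2 * (n : ℤ)) (M : ℤ) k| < 1 := by exact_mod_cast h5
    exact D_ne_zero _ _ hpar k (Int.abs_lt_one_iff.1 h6)
  · rw [not_le] at hc
    set N : ℤ := (-1) ^ (k + 1) * (D (2 * (n : ℤ)) (M : ℤ) (k + 1) * D (2 * (n : ℤ)) (M : ℤ) k)
      with hN
    have hNodd : Odd N := by
      rw [hN]
      exact (Odd.pow (by decide)).mul ((D_odd _ _ hpar (k + 1)).mul (D_odd _ _ hpar k))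
    have hgap : 0.81 ≤ |(N : ℝ) - 2 * Δ| := by
      rcases le_or_gt N 1 with h | h
      · have h1 : (N : ℝ) ≤ 1 := by exact_mod_cast h
        rw [abs_of_nonpos (by linarith)]; linarith
      · have h2 : 3 ≤ N := by
          obtain ⟨m, hm⟩ := hNodd
          omega
        have h1 : (3 : ℝ) ≤ (N : ℝ) := by exact_mod_cast h2
        rw [abs_of_nonneg (by linarith)]; linarith
    have hlt : u ^ 2 / ((4 * (k : ℝ) + 2) * (2 * (k : ℝ) + 1) * (2 * (k : ℝ) + 3)) +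
        (4 * (k : ℝ) + 3) * 0.915 ^ 2 / u ^ 2 +
        2 * 0.915 / ((4 * (k : ℝ) + 2) * (2 * (k : ℝ) + 3)) < 0.81 := by
      have hA : (0 : ℝ) < (4 * (k : ℝ) + 2) * (2 * (k : ℝ) + 1) * (2 * (k : ℝ) + 3) := by positivity
      have s3 : 2 * 0.915 / ((4 * (k : ℝ) + 2) * (2 * (k : ℝ) + 3)) ≤ 0.0262 := by
        rw [div_le_iff₀ (by positivity)]
        nlinarith
      by_cases hw : u ^ 2 / ((4 * (k : ℝ) + 2) * (2 * (k : ℝ) + 1) * (2 * (k : ℝ) + 3)) ≤ 0.12
      · have s1 : (4 * (k : ℝ) + 3) * 0.915 ^ 2 / u ^ 2 ≤ 0.656 := by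
          rw [div_le_iff₀ (by positivity)]
          have h1 : (2 * (k : ℝ) - 1 / 4) ^ 2 ≤ u ^ 2 :=
            pow_le_pow_left₀ (by linarith) hc.le 2
          nlinarith
        linarith
      · rw [not_le, lt_div_iff₀ hA] at hw
        have s2 : u ^ 2 / ((4 * (k : ℝ) + 2) * (2 * (k : ℝ) + 1) * (2 * (k : ℝ) + 3)) ≤ 0.5403 := by
          rw [div_le_iff₀ hA]
          have h1 : u ^ 2 ≤ (5 / 4 * (4 * (k : ℝ) + 3)) ^ 2 := pow_le_pow_left₀ hu0.le hu2 2
          have h2 : (5 / 4 * (4 * (k : ℝ) + 3)) ^ 2 ≤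
              0.5403 * ((4 * (k : ℝ) + 2) * (2 * (k : ℝ) + 1) * (2 * (k : ℝ) + 3)) := by
            obtain ⟨t, ht, ht0⟩ : ∃ t : ℝ, (k : ℝ) = t + 2 ∧ 0 ≤ t := ⟨(k : ℝ) - 2, by ring, by linarith⟩
            rw [ht]
            have e1 : 0.5403 * ((4 * (t + 2) + 2) * (2 * (t + 2) + 1) * (2 * (t + 2) + 3)) -
              (5 / 4 * (4 * (t + 2) + 3)) ^ 2 = 0.5403 * 16 * t ^ 3 + (0.5403 * 136 - 25) * t ^ 2 +
                (0.5403 * 380 - 137.5) * t + (0.5403 * 350 - 189.0625) := by ring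
            have e2 : 0 ≤ 0.5403 * 16 * t ^ 3 + (0.5403 * 136 - 25) * t ^ 2 +
                (0.5403 * 380 - 137.5) * t + (0.5403 * 350 - 189.0625) := by
              have : 0 ≤ t ^ 3 := by positivity
              have : 0 ≤ t ^ 2 := by positivity
              norm_num
              nlinarith
            linarith
          linarith
        have s4 : (4 * (k : ℝ) + 3) * 0.915 ^ 2 / u ^ 2 ≤ 0.22 := by
          rw [div_le_iff₀ (by positivity)]
          have h2 : (4 * (k : ℝ) + 3) * 0.915 ^ 2 ≤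
              0.22 * (0.12 * ((4 * (k : ℝ) + 2) * (2 * (k : ℝ) + 1) * (2 * (k : ℝ) + 3))) := by
            obtain ⟨t, ht, ht0⟩ : ∃ t : ℝ, (k : ℝ) = t + 2 ∧ 0 ≤ t := ⟨(k : ℝ) - 2, by ring, by linarith⟩
            rw [ht]
            have h3 : 0 ≤ t ^ 3 := by positivity
            have h4 : 0 ≤ t ^ 2 := by positivity
            norm_num
            nlinarith
          linarith
        linarith
    linarith

end Pool.Agent.K3EE
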