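import Mathlib
import Pool.Agent.K3EE.General
import Pool.Agent.K3EE.OneOdd

/-!
# `e ^ e` is not a power of a ratio of two integers with a small difference
-/

set_option autoImplicit false

namespace Pool.Agent.K3EE

open Real

theorem q_le_pow (k : ℕ) : (q (k + 1) : ℝ) ≤ (4 * (k : ℝ) + 3) ^ k := by
  induction k with
  | zero => simp [q]
  | succ k ih =>
    have h1 := q_upper (k + 1) (by omega)
    push_cast at h1 ⊢
    have h2 : (0 : ℝ) ≤ (k : ℝ) := Nat.cast_nonneg k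
    calc (q (k + 1 + 1) : ℝ) ≤ (4 * ((k : ℝ) + 1) + 3) * (q (k + 1) : ℝ) := h1
      _ ≤ (4 * ((k : ℝ) + 1) + 3) * (4 * (k : ℝ) + 3) ^ k := by gcongr
      _ ≤ (4 * ((k : ℝ) + 1) + 3) * (4 * ((k : ℝ) + 1) + 3) ^ k := by gcongr; linarith
      _ = (4 * ((k : ℝ) + 1) + 3) ^ (k + 1) := by ring

theorem log_mu (n δ μ : ℕ) (hδ : 0 < δ) (hμ : 3 * δ ≤ μ) (hpar : ¬ (Even δ ∧ Even μ))
    (he : exp 1 = (n : ℝ) * (log (1 + (δ : ℝ) / (μ : ℝ)) - log (1 - (δ : ℝ) / (μ : ℝ)))) :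
    log (μ : ℝ) ≤ 516808 * (δ : ℝ) ^ 6 * log ((δ : ℝ) + 1) ^ 2 := by
  obtain ⟨j, k, hj, hk, h1, h2, h3⟩ := general n δ μ hδ hμ hpar he
  have hx1 : (1 : ℝ) ≤ (δ : ℝ) := by exact_mod_cast hδ
  set x : ℝ := (δ : ℝ) with hx
  set l : ℝ := log (x + 1) with hl
  have hlog2 := Real.log_two_gt_d9
  have hl2 : log 2 ≤ l := log_le_log (by norm_num) (by linarith)
  have hlx : log x ≤ l := log_le_log (by linarith) (by linarith)
  have hx0 : 0 < x := by linarith
  have hlogx : 0 ≤ log x := log_nonneg hx1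
  have hl0 : 1 / 2 ≤ l := by linarith
  have hlpos : 0 < l := by linarith
  have hj0 : (1 : ℝ) ≤ (j : ℝ) := by exact_mod_cast hj
  have hk0 : (1 : ℝ) ≤ (k : ℝ) := by exact_mod_cast hk
  -- `j`
  have hjl : (j : ℝ) ≤ 7 * l := by
    obtain ⟨i, rfl⟩ : ∃ i, j = i + 1 := ⟨j - 1, by omega⟩
    have h4 : (4 : ℝ) ^ i ≤ 8 * x ^ 2 := (q_growth i).trans h1
    have h5 := log_le_log (by positivity) h4
    rw [log_pow, log_mul (by norm_num) (by positivity), log_pow] at h5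
    have h6 : log 4 = 2 * log 2 := by
      rw [show (4 : ℝ) = 2 ^ 2 by norm_num, log_pow]; push_cast; ring
    have h7 : log 8 = 3 * log 2 := by
      rw [show (8 : ℝ) = 2 ^ 3 by norm_num, log_pow]; push_cast; ring
    rw [h6, h7] at h5
    push_cast at h5 ⊢
    have h8 : (0 : ℝ) ≤ (i : ℝ) := Nat.cast_nonneg i
    nlinarith
  have hkl : (k : ℝ) ≤ 20672 * (x ^ 6 * l) := by
    have h4 : 4 * (j : ℝ) + 3 ≤ 34 * l := by linarith
    calc (k : ℝ) ≤ 608 * (4 * (j : ℝ) + 3) * x ^ 6 := h2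
      _ ≤ 608 * (34 * l) * x ^ 6 := by gcongr
      _ = 20672 * (x ^ 6 * l) := by ring
  have hlogk : log (4 * (k : ℝ) + 3) ≤ 25 * l := by
    have h4 : 4 * (k : ℝ) + 3 ≤ 2 ^ 18 * (x ^ 6 * l) := by
      have : 4 * (k : ℝ) + 3 ≤ 7 * (k : ℝ) := by linarith
      have h5 : 0 < x ^ 6 * l := by positivity
      linarith
    have h5 := log_le_log (by positivity) h4
    rw [log_mul (by norm_num) (by positivity), log_mul (by positivity) hlpos.ne', log_pow,
      log_pow] at h5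
    have h6 : log l ≤ l := (log_le_sub_one_of_pos hlpos).trans (by linarith)
    push_cast at h5
    linarith
  have hμ0 : (0 : ℝ) < (μ : ℝ) := by
    have : 0 < μ := by omega
    exact_mod_cast this
  have h5 : (μ : ℝ) ≤ 4 * x ^ 2 * (4 * (k : ℝ) + 3) ^ k := by
    refine h3.le.trans ?_
    have := q_le_pow k
    gcongr
  have h6 := log_le_log hμ0 h5
  rw [log_mul (by positivity) (by positivity), log_mul (by norm_num) (by positivity), log_pow,
    log_pow] at h6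
  have h7 : log 4 = 2 * log 2 := by
    rw [show (4 : ℝ) = 2 ^ 2 by norm_num, log_pow]; push_cast; ring
  rw [h7] at h6
  push_cast at h6
  have h8 : (k : ℝ) * log (4 * (k : ℝ) + 3) ≤ 20672 * (x ^ 6 * l) * (25 * l) := by
    apply mul_le_mul hkl hlogk (log_nonneg (by linarith)) (by positivity)
  have h9 : 4 * l ≤ 8 * (x ^ 6 * l ^ 2) := by
    have h10 : 1 ≤ x ^ 6 := one_le_pow₀ hx1
    have h11 : l ≤ 2 * l ^ 2 := by nlinarith
    have h12 : l ^ 2 ≤ x ^ 6 * l ^ 2 := by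
      have : 0 ≤ l ^ 2 := by positivity
      nlinarith
    linarith
  calc log (μ : ℝ) ≤ 2 * log 2 + 2 * log x + (k : ℝ) * log (4 * (k : ℝ) + 3) := h6
    _ ≤ 2 * l + 2 * l + 20672 * (x ^ 6 * l) * (25 * l) := by gcongr
    _ ≤ 516808 * x ^ 6 * l ^ 2 := by nlinarith

/-- Reduction to the logarithm. -/
theorem log_eq (a b n : ℕ) (hb : 0 < b) (hab : b < a)
    (h : exp 1 ^ exp 1 = ((a : ℝ) / (b : ℝ)) ^ n) (δ μ : ℝ) (hμ : 0 < μ)
    (hδ : ((a : ℝ) - (b : ℝ)) * μ = δ * ((a : ℝ) + (b : ℝ))) :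
    exp 1 = (n : ℝ) * (log (1 + δ / μ) - log (1 - δ / μ)) := by
  have hb' : (0 : ℝ) < (b : ℝ) := by exact_mod_cast hb
  have hab' : (b : ℝ) < (a : ℝ) := by exact_mod_cast hab
  have ha' : (0 : ℝ) < (a : ℝ) := by linarith
  have h1 : δ / μ = ((a : ℝ) - (b : ℝ)) / ((a : ℝ) + (b : ℝ)) := by
    rw [div_eq_div_iff hμ.ne' (by positivity)]; linarith
  have h2 : 1 + δ / μ = 2 * (a : ℝ) / ((a : ℝ) + (b : ℝ)) := by
    rw [h1]; field_simp; ring
  have h3 : 1 - δ / μ = 2 * (b : ℝ) / ((a : ℝ) + (b : ℝ)) := by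
    rw [h1]; field_simp; ring
  rw [h2, h3, ← log_div (by positivity) (by positivity)]
  have h4 : 2 * (a : ℝ) / ((a : ℝ) + (b : ℝ)) / (2 * (b : ℝ) / ((a : ℝ) + (b : ℝ))) =
      (a : ℝ) / (b : ℝ) := by field_simp
  rw [h4, ← log_pow, ← h, log_rpow (exp_pos 1), log_exp, mul_one]

theorem main_bound (a b n : ℕ) (hb : 0 < b) (hab : b < a)
    (h : exp 1 ^ exp 1 = ((a : ℝ) / (b : ℝ)) ^ n) :
    log (b : ℝ) ≤ 10 ^ 6 * ((a : ℝ) - (b : ℝ)) ^ 6 * log ((a : ℝ) - (b : ℝ) + 1) ^ 2 := by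
  have hb' : (1 : ℝ) ≤ (b : ℝ) := by exact_mod_cast hb
  have hd1 : (1 : ℝ) ≤ (a : ℝ) - (b : ℝ) := by
    have : (b : ℝ) + 1 ≤ (a : ℝ) := by exact_mod_cast hab
    linarith
  set d : ℝ := (a : ℝ) - (b : ℝ) with hd
  set l : ℝ := log (d + 1) with hl
  have hlog2 := Real.log_two_gt_d9
  have hl2 : log 2 ≤ l := log_le_log (by norm_num) (by linarith)
  have hl0 : 1 / 2 ≤ l := by linarith
  have hl3 : l ≤ 2 * l ^ 2 := by nlinarith
  have hd6 : 1 ≤ d ^ 6 := one_le_pow₀ hd1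
  have hl4 : 1 / 4 ≤ l ^ 2 := by nlinarith
  by_cases hc : 2 * b ≤ a
  · have h1 : (b : ℝ) ≤ d := by
      have : 2 * (b : ℝ) ≤ (a : ℝ) := by exact_mod_cast hc
      rw [hd]; linarith
    have h2 : log (b : ℝ) ≤ d := ((log_le_sub_one_of_pos (by linarith)).trans (by linarith))
    have h3 : d ≤ d ^ 6 := by
      have := pow_le_pow_right₀ hd1 (show 1 ≤ 6 by norm_num)
      simpa using this
    have h4 : 10 ^ 6 * d ^ 6 * (1 / 4) ≤ 10 ^ 6 * d ^ 6 * l ^ 2 := by gcongr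
    linarith
  · rw [not_le] at hc
    set g := Nat.gcd (a - b) (a + b) with hg
    have hg0 : 0 < g := Nat.gcd_pos_of_pos_left _ (by omega)
    obtain ⟨δ, hδ⟩ : g ∣ a - b := Nat.gcd_dvd_left _ _
    obtain ⟨μ, hμ⟩ : g ∣ a + b := Nat.gcd_dvd_right _ _
    have hcop : Nat.Coprime δ μ := by
      have h1 : Nat.gcd (g * δ) (g * μ) = g := by rw [← hδ, ← hμ]
      rw [Nat.gcd_mul_left] at h1
      exact Nat.eq_of_mul_eq_mul_left hg0 (by rw [h1, mul_one])
    have hδ0 : 0 < δ := by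
      rcases Nat.eq_zero_or_pos δ with h0 | h0
      · rw [h0, mul_zero] at hδ; omega
      · exact h0
    have h3δ : 3 * δ ≤ μ := by
      have h1 : g * (3 * δ) ≤ g * μ := by
        rw [← hμ]
        have : g * (3 * δ) = 3 * (a - b) := by rw [hδ]; ring
        omega
      exact le_of_mul_le_mul_left h1 hg0
    have hμ0 : 0 < μ := by omega
    have hpar : ¬ (Even δ ∧ Even μ) := by
      rintro ⟨h1, h2⟩
      have h3 : 2 ∣ Nat.gcd δ μ := Nat.dvd_gcd h1.two_dvd h2.two_dvd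
      rw [hcop] at h3
      omega
    have eδ : d = (g : ℝ) * (δ : ℝ) := by
      have : ((a - b : ℕ) : ℝ) = (g : ℝ) * (δ : ℝ) := by exact_mod_cast hδ
      rw [← this, hd, Nat.cast_sub hab.le]
    have eμ : (a : ℝ) + (b : ℝ) = (g : ℝ) * (μ : ℝ) := by exact_mod_cast hμ
    have hlog := log_eq a b n hb hab h (δ : ℝ) (μ : ℝ) (by exact_mod_cast hμ0) (by
      rw [← hd, eδ, eμ]; ring)
    have hmain := log_mu n δ μ hδ0 h3δ hpar hlog
    have hg1 : (1 : ℝ) ≤ (g : ℝ) := by exact_mod_cast hg0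
    have hδ1 : (1 : ℝ) ≤ (δ : ℝ) := by exact_mod_cast hδ0
    have hμ1 : (1 : ℝ) ≤ (μ : ℝ) := by exact_mod_cast hμ0
    have hδd : (δ : ℝ) ≤ d := by rw [eδ]; nlinarith
    have hgd : (g : ℝ) ≤ d := by rw [eδ]; nlinarith
    have hb2 : (b : ℝ) ≤ (d + 1) * (μ : ℝ) := by
      have h1 : (b : ℝ) ≤ (g : ℝ) * (μ : ℝ) := by rw [← eμ]; linarith
      refine h1.trans ?_
      gcongr
      linarith
    have h5 := log_le_log (by linarith) hb2
    rw [log_mul (by linarith) (by linarith)] at h5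
    have h6 : 516808 * (δ : ℝ) ^ 6 * log ((δ : ℝ) + 1) ^ 2 ≤ 516808 * d ^ 6 * l ^ 2 := by
      have h7 : 0 ≤ log ((δ : ℝ) + 1) := log_nonneg (by linarith)
      have h8 : log ((δ : ℝ) + 1) ≤ l := log_le_log (by linarith) (by linarith)
      gcongr
    have h9 : l ^ 2 ≤ d ^ 6 * l ^ 2 := by nlinarith
    linarith

theorem three_le (a b n : ℕ) (hb : 0 < b) (hab : b < a)
    (h : exp 1 ^ exp 1 = ((a : ℝ) / (b : ℝ)) ^ n) : 3 ≤ a - b := by
  by_contra hcon
  have h12 : a = b + 1 ∨ a = b + 2 := by omega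
  rcases h12 with rfl | rfl
  · have h1 := log_eq (b + 1) b n hb hab h ((1 : ℕ) : ℝ) ((2 * b + 1 : ℕ) : ℝ) (by positivity)
      (by push_cast; ring)
    exact one_odd n (2 * b + 1) (by omega) ⟨b, rfl⟩ h1
  · have h1 := log_eq (b + 2) b n hb hab h ((1 : ℕ) : ℝ) ((b + 1 : ℕ) : ℝ) (by positivity)
      (by push_cast; ring)
    rcases Nat.even_or_odd (b + 1) with h2 | h2
    · obtain ⟨ν, hν⟩ := h2
      have hν2 : b + 1 = 2 * ν := by omega
      by_cases hb1 : b = 1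
      · subst hb1
        have h3 := log_eq (1 + 2) 1 n hb hab h 1 2 (by norm_num) (by norm_num)
        have h4 : log (1 + 1 / 2) - log (1 - 1 / 2) = log 3 := by
          rw [← log_div (by norm_num) (by norm_num)]; norm_num
        rw [h4] at h3
        have he1 : exp 1 < 2.7182818286 := Real.exp_one_lt_d9
        have he0 : 2.7182818283 < exp 1 := Real.exp_one_gt_d9
        have hl1 : 1 < log 3 := by
          rw [lt_log_iff_exp_lt (by norm_num)]; linarith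
        have hl2 : log 3 < 1.35 := by
          rw [log_lt_iff_lt_exp (by norm_num)]
          have h5 : exp (1.35 : ℝ) = exp 1 * exp 0.35 := by rw [← exp_add]; norm_num
          rw [h5]
          have h6 := add_one_le_exp (0.35 : ℝ)
          nlinarith
        rcases le_or_gt n 2 with hn | hn
        · have : (n : ℝ) ≤ 2 := by exact_mod_cast hn
          nlinarith
        · have : (3 : ℝ) ≤ (n : ℝ) := by exact_mod_cast hn
          nlinarith
      · rw [hν2] at h1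
        exact one_even n ν (by omega) h1
    · by_cases hb2 : b + 1 = 2
      · rw [hb2] at h2
        exact absurd h2 (by decide)
      · exact one_odd n (b + 1) (by
          obtain ⟨m, hm⟩ := h2
          omega) h2 h1

end Pool.Agent.K3EE
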